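import Mathlib
import Pool.Agent.W157.MX.Chain
import Pool.Agent.W66.LU

set_option autoImplicit false

/-!
# Exponents of Mersenne type in every window of the size of a power of `log x`

The Mersenne number `2 ^ p - 1` has the binary digits `1 ... 1` (`p` ones).  Let `0 < s ≤ 1`.  For a
sequence `w` of prescribed initial blocks and `0 < θ ≤ 1` let `N g s w θ p` be the integer whose digits
in base `g` are those of `w p` followed by the first `⌊s p⌋` digits of `θ` (non-terminating expansion),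
and call a prime `p` an exponent for `θ` if the `p`-rough part of `N g s w θ p` is prime.  For `g = 2`,
`w = ones` and `θ = 1` (and also for `s = 1`, `w = 0` and `θ = 1`) the exponents are those of the
Mersenne primes.  It is expected that the number of Mersenne exponents between `x` and `x L` has the
order of magnitude `log L` as soon as `L` is larger than a power of `log x`, and that consecutive
exponents `p < q` satisfy `q ≤ p (log p) ^ C`.  We prove this, for the lower bound and for almost every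
`θ`, with a large deviation bound `C L ^ (-c)` that holds uniformly among the `θ` that begin with given
digits.
-/

namespace Pool.Agent.Results.MP_9b2bac_nt.EveryWindow

open Filter Topology MeasureTheory

/-- The product, with multiplicity, of the prime factors of `m` that are larger than `p`. -/
def roughPart (p m : ℕ) : ℕ := (m.primeFactorsList.filter (fun r => p < r)).prod

/-- The integer formed by the first `n` digits of `θ` in base `g` (non-terminating expansion). -/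
noncomputable def D (g : ℕ) (θ : ℝ) (n : ℕ) : ℕ := ⌈θ * (g : ℝ) ^ n⌉₊ - 1

/-- The digits of `w p`, followed by the first `⌊s p⌋` digits of `θ`. -/
noncomputable def N (g : ℕ) (s : ℝ) (w : ℕ → ℕ) (θ : ℝ) (p : ℕ) : ℕ :=
  w p * g ^ ⌊s * p⌋₊ + D g θ ⌊s * p⌋₊

/-- `w p` has at most `p - ⌊s p⌋` digits in base `g`. -/
def Fits (g : ℕ) (s : ℝ) (w : ℕ → ℕ) : Prop := ∀ p : ℕ, 1 ≤ p → w p < g ^ (p - ⌊s * p⌋₊)

/-- The integer with `p - ⌊s p⌋` binary digits `1`. -/
noncomputable def ones (s : ℝ) (p : ℕ) : ℕ := 2 ^ (p - ⌊s * p⌋₊) - 1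

/-- The number of primes `p` in `S` with `a < p ≤ b` for which the `p`-rough part of `N g s w θ p` is
prime. -/
noncomputable def M (S : Set ℕ) (g : ℕ) (s : ℝ) (w : ℕ → ℕ) (θ a b : ℝ) : ℕ :=
  {p : ℕ | a < p ∧ (p : ℝ) ≤ b ∧ p.Prime ∧ p ∈ S ∧ (roughPart p (N g s w θ p)).Prime}.ncard

open Classical in
/-- The sum of `log p / p` over the primes `p ≤ n` in `S`. -/
noncomputable def V (S : Set ℕ) (n : ℕ) : ℝ :=
  ∑ p ∈ (Finset.range (n + 1)).filter (fun p => p.Prime ∧ p ∈ S), Real.log p / p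

lemma V_eq (S : Set ℕ) (n : ℕ) : V S n = Pool.Agent.TH888.R.VS S n := by
  classical
  unfold V Pool.Agent.TH888.R.VS
  rw [Finset.sum_filter]
  refine Finset.sum_congr rfl fun p _ => ?_
  by_cases h : p.Prime ∧ p ∈ S
  · rw [if_pos h, if_pos ⟨h.2, h.1⟩]
    rfl
  · rw [if_neg h, if_neg fun h1 => h ⟨h1.2, h1.1⟩]

lemma N_mersenne {s : ℝ} (hs0 : 0 ≤ s) (hs1 : s ≤ 1) (p : ℕ) : N 2 s (ones s) 1 p = 2 ^ p - 1 := by
  have h1 : ⌊s * p⌋₊ ≤ p := by
    refine Nat.floor_le_of_le ?_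
    have : (0 : ℝ) ≤ p := Nat.cast_nonneg p
    nlinarith
  obtain ⟨r, hr⟩ : ∃ r, r = ⌊s * p⌋₊ := ⟨_, rfl⟩
  unfold N ones D
  rw [← hr] at h1 ⊢
  have h2 : ⌈(1 : ℝ) * ((2 : ℕ) : ℝ) ^ r⌉₊ = 2 ^ r := by
    rw [one_mul]
    exact_mod_cast Nat.ceil_natCast (R := ℝ) (2 ^ r)
  rw [h2, Nat.sub_mul, one_mul, ← pow_add, Nat.sub_add_cancel h1]
  have h3 : 1 ≤ 2 ^ r := Nat.one_le_two_pow
  have h4 : 2 ^ r ≤ 2 ^ p := Nat.pow_le_pow_right (by norm_num) h1
  omega

lemma rough_mersenne {p : ℕ} (hp : p.Prime) : roughPart p (2 ^ p - 1) = 2 ^ p - 1 :=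
  Pool.Agent.W66L.rough_mersenne hp

section

variable {S : Set ℕ} {g : ℕ} {s : ℝ} {w : ℕ → ℕ}

lemma fin_set (θ a b : ℝ) :
    {p : ℕ | a < p ∧ (p : ℝ) ≤ b ∧ p.Prime ∧ p ∈ S ∧ (roughPart p (N g s w θ p)).Prime}.Finite := by
  refine (Set.finite_le_nat ⌊b⌋₊).subset fun p hp => ?_
  exact Nat.le_floor hp.2.1

lemma M_mono (θ : ℝ) {a a' b b' : ℝ} (ha : a' ≤ a) (hb : b ≤ b') :
    M S g s w θ a b ≤ M S g s w θ a' b' := by
  unfold M
  refine Set.ncard_le_ncard ?_ (fin_set θ a' b')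
  intro p hp
  exact ⟨lt_of_le_of_lt ha hp.1, hp.2.1.trans hb, hp.2.2⟩

end

/-- the deviation bound -/
theorem dev : ∃ δ : ℝ, 0 < δ ∧ δ < 1 ∧ ∀ g : ℕ, 2 ≤ g → ∀ (S : Set ℕ) (Q : ℕ) (v : ℝ), 0 < v →
    (∀ᶠ n : ℕ in atTop, v ≤ V S (Q * n) - V S n) →
    ∃ κ c C : ℝ, 0 < κ ∧ 0 < c ∧ 0 < C ∧ ∀ᶠ x : ℝ in atTop, ∀ s : ℝ, 1 - δ ≤ s → s ≤ 1 →
      ∀ w : ℕ → ℕ, Fits g s w → ∀ L : ℝ, 1 ≤ L → ∀ t A : ℕ, t ≤ κ * x → 3 ≤ A → A < g ^ t →
      volume.real {θ : ℝ | θ ∈ Set.Ioc (0 : ℝ) 1 ∧ D g θ t = A ∧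
        (M S g s w θ x (x * L) : ℝ) < c * Real.log L} ≤ C * L ^ (-c) * ((g : ℝ) ^ t)⁻¹ := by
  classical
  obtain ⟨δ, hδ, hδ1, h⟩ := Pool.Agent.W157.MX.dev_block
  refine ⟨δ, hδ, hδ1, fun g hg S Q v hv hS => ?_⟩
  have hV : ∀ n, V S n = Pool.Agent.TH888.R.VS S n := fun n => V_eq S n
  simp only [hV] at hS
  obtain ⟨K, c0, hK2, hc0, hc01, hev⟩ := h g hg S Q v hv hS
  obtain ⟨Z, hZ⟩ := eventually_atTop.1 hev
  have hKr : (2 : ℝ) ≤ K := by exact_mod_cast hK2
  have hK0 : (0 : ℝ) < K := by linarith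
  obtain ⟨lK, hlK⟩ : ∃ lK, lK = Real.log K := ⟨_, rfl⟩
  have hlK0 : 0 < lK := by rw [hlK]; exact Real.log_pos (by linarith)
  obtain ⟨c, hc⟩ : ∃ c, c = c0 / (4 * lK) := ⟨_, rfl⟩
  have hcpos : 0 < c := by rw [hc]; positivity
  refine ⟨1 / K, c, Real.exp c0, by positivity, hcpos, Real.exp_pos _, ?_⟩
  filter_upwards [eventually_ge_atTop (K * Z : ℝ), eventually_ge_atTop (2 : ℝ)] with x hx hx2
    s hs hs1 w hw L hL t A ht hA3 hAt
  obtain ⟨z0, hz0⟩ : ∃ z0, z0 = ⌈x / K⌉₊ := ⟨_, rfl⟩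
  have hz1 : x / K ≤ z0 := by rw [hz0]; exact Nat.le_ceil _
  have hz2 : (z0 : ℝ) < x / K + 1 := by rw [hz0]; exact Nat.ceil_lt_add_one (by positivity)
  have hzZ : Z ≤ z0 := by
    have : (Z : ℝ) ≤ z0 := by
      refine le_trans ?_ hz1
      rw [le_div_iff₀ hK0]
      linarith
    exact_mod_cast this
  have htz : t ≤ z0 := by
    have : (t : ℝ) ≤ z0 := by
      refine ht.trans (le_trans (le_of_eq ?_) hz1)
      ring
    exact_mod_cast this
  have hxK : x ≤ K * z0 := by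
    rw [div_le_iff₀ hK0] at hz1
    linarith
  have hzx : (z0 : ℝ) ≤ x := by
    have : x / K ≤ x / 2 := div_le_div_of_nonneg_left (by linarith) (by norm_num) hKr
    linarith
  have hL0 : (0 : ℝ) < L := by linarith
  have hlL : 0 ≤ Real.log L := Real.log_nonneg hL
  obtain ⟨J, hJ⟩ : ∃ J, J = ⌊Real.log L / (2 * lK)⌋₊ := ⟨_, rfl⟩
  have hJ1 : (J : ℝ) ≤ Real.log L / (2 * lK) := by rw [hJ]; exact Nat.floor_le (by positivity)
  have hJ2 : Real.log L / (2 * lK) < J + 1 := by rw [hJ]; exact Nat.lt_floor_add_one _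
  have hKJ : (K : ℝ) ^ (2 * J) ≤ L := by
    have e : (K : ℝ) ^ (2 * J) = Real.exp (2 * J * lK) := by
      have h1 : (K : ℝ) = Real.exp lK := by rw [hlK, Real.exp_log hK0]
      rw [h1, ← Real.exp_nat_mul]
      push_cast
      ring_nf
    rw [e, ← Real.le_log_iff_exp_le hL0]
    rw [le_div_iff₀ (by positivity)] at hJ1
    linarith
  have hmain := hZ z0 hzZ s hs hs1 w hw (Pool.Agent.Q160.TB.top_ceil hg) t A J htz hA3 hAt
    (fun θ => M S g s w θ x (x * L)) (c * Real.log L) (by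
      intro θ F hF
      have h1 : (F : Set ℕ) ⊆ {p : ℕ | x < p ∧ (p : ℝ) ≤ x * L ∧ p.Prime ∧ p ∈ S ∧
          (roughPart p (N g s w θ p)).Prime} := by
        intro p hp
        obtain ⟨h1, h2, h3, h4, h5⟩ := hF p hp
        refine ⟨?_, ?_, h3, h4, h5⟩
        · have : ((K * z0 : ℕ) : ℝ) < p := by exact_mod_cast h1
          push_cast at this
          linarith
        · have h6 : (p : ℝ) ≤ ((K ^ (2 * J) * z0 : ℕ) : ℝ) := by exact_mod_cast h2
          push_cast at h6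
          refine h6.trans ?_
          calc (K : ℝ) ^ (2 * J) * z0 ≤ L * x := by gcongr
            _ = x * L := by ring
      have h2 := Set.ncard_le_ncard h1 (fin_set θ x (x * L))
      rw [Set.ncard_coe_finset] at h2
      exact h2)
  have hset : volume.real {θ : ℝ | θ ∈ Set.Ioc (0 : ℝ) 1 ∧ D g θ t = A ∧
      (M S g s w θ x (x * L) : ℝ) < c * Real.log L} =
      (volume.restrict (Set.Ioc (0 : ℝ) 1)).real {θ : ℝ | ⌈θ * (g : ℝ) ^ t⌉₊ - 1 = A ∧
      (M S g s w θ x (x * L) : ℝ) < c * Real.log L} := by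
    rw [measureReal_def, measureReal_def, Measure.restrict_apply' measurableSet_Ioc]
    congr 2
    ext θ
    constructor
    · rintro ⟨h1, h2, h3⟩
      exact ⟨⟨h2, h3⟩, h1⟩
    · rintro ⟨⟨h2, h3⟩, h1⟩
      exact ⟨h1, h2, h3⟩
  rw [hset]
  refine hmain.trans ?_
  rw [← mul_assoc]
  refine mul_le_mul_of_nonneg_right ?_ (by positivity)
  have h2c : (2 : ℝ) ^ (c * Real.log L) ≤ Real.exp (c * Real.log L) := by
    rw [Real.rpow_def_of_pos (by norm_num : (0 : ℝ) < 2)]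
    refine Real.exp_le_exp.2 ?_
    have h1 : Real.log 2 ≤ 1 := by linarith [Real.log_two_lt_d9]
    have h2 : 0 ≤ c * Real.log L := by positivity
    nlinarith
  have h1c : (1 - c0) ^ J ≤ Real.exp (-(c0 * J)) := by
    have h1 : 1 - c0 ≤ Real.exp (-c0) := by
      have := Real.add_one_le_exp (-c0)
      linarith
    calc (1 - c0) ^ J ≤ (Real.exp (-c0)) ^ J := pow_le_pow_left₀ (by linarith) h1 J
      _ = Real.exp (-(c0 * J)) := by rw [← Real.exp_nat_mul]; ring_nf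
  calc (2 : ℝ) ^ (c * Real.log L) * (1 - c0) ^ J ≤
        Real.exp (c * Real.log L) * Real.exp (-(c0 * J)) := by
          refine mul_le_mul h2c h1c (by
            have : 0 ≤ 1 - c0 := by linarith
            positivity) (Real.exp_pos _).le
    _ = Real.exp (c * Real.log L - c0 * J) := by rw [← Real.exp_add]; ring_nf
    _ ≤ Real.exp (c0 - c * Real.log L) := by
          refine Real.exp_le_exp.2 ?_
          have h3 : c0 * (Real.log L / (2 * lK)) ≤ c0 * (J + 1) := mul_le_mul_of_nonneg_left hJ2.le hc0.le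
          have h4 : c0 * (Real.log L / (2 * lK)) = 2 * (c * Real.log L) := by
            rw [hc]
            field_simp
            norm_num
          linarith
    _ = Real.exp c0 * L ^ (-c) := by
          rw [Real.rpow_def_of_pos hL0, ← Real.exp_add]
          ring_nf

/-- every window, at almost every point -/
theorem every {g : ℕ} (hg : 2 ≤ g) {S : Set ℕ} {s : ℝ} {w : ℕ → ℕ} {κ c C X0 : ℝ} (hκ : 0 < κ)
    (hc : 0 < c) (hC : 0 < C)
    (hdev : ∀ x ≥ X0, ∀ L : ℝ, 1 ≤ L → ∀ t A : ℕ, t ≤ κ * x → 3 ≤ A → A < g ^ t →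
      volume.real {θ : ℝ | θ ∈ Set.Ioc (0 : ℝ) 1 ∧ D g θ t = A ∧
        (M S g s w θ x (x * L) : ℝ) < c * Real.log L} ≤ C * L ^ (-c) * ((g : ℝ) ^ t)⁻¹) :
    ∀ᵐ θ : ℝ, θ ∈ Set.Ioc (0 : ℝ) 1 → ∀ᶠ x : ℝ in atTop, ∀ L : ℝ, (Real.log x) ^ (12 / c) ≤ L →
      c / 2 * Real.log L ≤ M S g s w θ x (x * L) := by
  classical
  obtain ⟨r, hr⟩ : ∃ r : ℝ, r = (2 : ℝ) ^ (-(c / 2)) := ⟨_, rfl⟩
  have hr0 : 0 < r := by rw [hr]; positivity
  have hr1 : r < 1 := by
    rw [hr]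
    exact Real.rpow_lt_one_of_one_lt_of_neg (by norm_num) (by linarith)
  have hgr : (2 : ℝ) ≤ g := by exact_mod_cast hg
  have hg0 : (0 : ℝ) < g := by linarith
  obtain ⟨tt, htt⟩ : ∃ tt : ℕ → ℕ, tt = fun i => ⌊κ * 2 ^ i⌋₊ := ⟨_, rfl⟩
  obtain ⟨E, hE⟩ : ∃ E : ℕ × ℕ → Set ℝ, E = fun q => {θ : ℝ | θ ∈ Set.Ioc (0 : ℝ) 1 ∧
      3 ≤ D g θ (tt q.1) ∧ X0 ≤ (2 : ℝ) ^ q.1 ∧ ((q.1 : ℝ) + 1) ^ 2 * r ^ q.2 ≤ 1 ∧
      (M S g s w θ ((2 : ℝ) ^ q.1) ((2 : ℝ) ^ q.1 * (2 : ℝ) ^ q.2) : ℝ) <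
        c * Real.log ((2 : ℝ) ^ q.2)} := ⟨_, rfl⟩
  have hEm : ∀ i l θ, θ ∈ E (i, l) ↔ (θ ∈ Set.Ioc (0 : ℝ) 1 ∧
      3 ≤ D g θ (tt i) ∧ X0 ≤ (2 : ℝ) ^ i ∧ ((i : ℝ) + 1) ^ 2 * r ^ l ≤ 1 ∧
      (M S g s w θ ((2 : ℝ) ^ i) ((2 : ℝ) ^ i * (2 : ℝ) ^ l) : ℝ) <
        c * Real.log ((2 : ℝ) ^ l)) := by
    intro i l θ
    rw [hE]
    rfl
  have hIfin : volume (Set.Ioc (0 : ℝ) 1) ≠ ⊤ := by rw [Real.volume_Ioc]; simp
  have hbound : ∀ q : ℕ × ℕ, volume (E q) ≤
      ENNReal.ofReal (C * (1 / ((q.1 : ℝ) + 1) ^ 2 * r ^ q.2)) := by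
    rintro ⟨i, l⟩
    simp only
    by_cases hcond : X0 ≤ (2 : ℝ) ^ i ∧ ((i : ℝ) + 1) ^ 2 * r ^ l ≤ 1
    · obtain ⟨hi, hil⟩ := hcond
      have hsub1 : E (i, l) ⊆ Set.Ioc (0 : ℝ) 1 := fun θ hθ => ((hEm i l θ).1 hθ).1
      have hfin : volume (E (i, l)) ≠ ⊤ := ne_top_of_le_ne_top hIfin (measure_mono hsub1)
      have hsub : E (i, l) ⊆ ⋃ A ∈ Finset.Ico 3 (g ^ tt i), {θ : ℝ | θ ∈ Set.Ioc (0 : ℝ) 1 ∧
          D g θ (tt i) = A ∧ (M S g s w θ ((2 : ℝ) ^ i) ((2 : ℝ) ^ i * (2 : ℝ) ^ l) : ℝ) <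
            c * Real.log ((2 : ℝ) ^ l)} := by
        intro θ hθ
        obtain ⟨h1, h2, _, _, h3⟩ := (hEm i l θ).1 hθ
        simp only [Set.mem_iUnion]
        refine ⟨D g θ (tt i), ?_, h1, rfl, h3⟩
        rw [Finset.mem_Ico]
        refine ⟨h2, ?_⟩
        unfold D
        have h4 : ⌈θ * (g : ℝ) ^ tt i⌉₊ ≤ g ^ tt i := by
          rw [Nat.ceil_le]
          push_cast
          have : (0 : ℝ) < (g : ℝ) ^ tt i := by positivity
          nlinarith [h1.2]
        have h5 : 0 < g ^ tt i := by positivity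
        omega
      have hr2 : volume.real (E (i, l)) ≤ C * (1 / ((i : ℝ) + 1) ^ 2 * r ^ l) := by
        have hfin2 : volume (⋃ A ∈ Finset.Ico 3 (g ^ tt i), {θ : ℝ | θ ∈ Set.Ioc (0 : ℝ) 1 ∧
            D g θ (tt i) = A ∧ (M S g s w θ ((2 : ℝ) ^ i) ((2 : ℝ) ^ i * (2 : ℝ) ^ l) : ℝ) <
              c * Real.log ((2 : ℝ) ^ l)}) ≠ ⊤ := by
          refine ne_top_of_le_ne_top hIfin (measure_mono ?_)
          intro θ hθ
          simp only [Set.mem_iUnion] at hθ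
          obtain ⟨A, _, h1⟩ := hθ
          exact h1.1
        refine (measureReal_mono hsub hfin2).trans ?_
        refine (measureReal_biUnion_finset_le _ _).trans ?_
        have hone : ∀ A ∈ Finset.Ico 3 (g ^ tt i), volume.real {θ : ℝ | θ ∈ Set.Ioc (0 : ℝ) 1 ∧
            D g θ (tt i) = A ∧ (M S g s w θ ((2 : ℝ) ^ i) ((2 : ℝ) ^ i * (2 : ℝ) ^ l) : ℝ) <
              c * Real.log ((2 : ℝ) ^ l)} ≤ C * ((2 : ℝ) ^ l) ^ (-c) * ((g : ℝ) ^ tt i)⁻¹ := by
          intro A hA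
          rw [Finset.mem_Ico] at hA
          refine hdev _ hi _ (one_le_pow₀ (by norm_num)) _ A ?_ hA.1 hA.2
          rw [htt]
          exact Nat.floor_le (by positivity)
        refine (Finset.sum_le_sum hone).trans ?_
        rw [Finset.sum_const, nsmul_eq_mul, Nat.card_Ico]
        have h6 : ((g ^ tt i - 3 : ℕ) : ℝ) ≤ (g : ℝ) ^ tt i := by
          have : g ^ tt i - 3 ≤ g ^ tt i := Nat.sub_le _ _
          exact_mod_cast this
        have h7 : (0 : ℝ) < (g : ℝ) ^ tt i := by positivity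
        have h8 : ((2 : ℝ) ^ l) ^ (-c) = r ^ l * r ^ l := by
          rw [hr, ← Real.rpow_natCast, ← Real.rpow_natCast, ← Real.rpow_mul (by norm_num),
            ← Real.rpow_mul (by norm_num), ← Real.rpow_add (by norm_num)]
          ring_nf
        have h9 : 0 < r ^ l := by positivity
        calc ((g ^ tt i - 3 : ℕ) : ℝ) * (C * ((2 : ℝ) ^ l) ^ (-c) * ((g : ℝ) ^ tt i)⁻¹) ≤
              (g : ℝ) ^ tt i * (C * ((2 : ℝ) ^ l) ^ (-c) * ((g : ℝ) ^ tt i)⁻¹) :=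
                mul_le_mul_of_nonneg_right h6 (by positivity)
          _ = C * (r ^ l * r ^ l) := by rw [h8]; field_simp
          _ ≤ C * (1 / ((i : ℝ) + 1) ^ 2 * r ^ l) := by
              refine mul_le_mul_of_nonneg_left (mul_le_mul_of_nonneg_right ?_ h9.le) hC.le
              rw [le_div_iff₀ (by positivity)]
              linarith
      rw [← ofReal_measureReal hfin]
      exact ENNReal.ofReal_le_ofReal hr2
    · have : E (i, l) = ∅ := by
        ext θ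
        simp only [Set.mem_empty_iff_false, iff_false]
        intro hθ
        obtain ⟨_, _, h1, h2, _⟩ := (hEm i l θ).1 hθ
        exact hcond ⟨h1, h2⟩
      rw [this]
      simp
  have hsum1 : Summable (fun i : ℕ => 1 / ((i : ℝ) + 1) ^ 2) := by
    have h1 := (summable_nat_add_iff 1).2 (Real.summable_one_div_nat_pow.2 (by norm_num : 1 < 2))
    simpa using h1
  have hsum2 : Summable (fun l : ℕ => r ^ l) := summable_geometric_of_lt_one hr0.le hr1
  have hsum : Summable (fun q : ℕ × ℕ => C * (1 / ((q.1 : ℝ) + 1) ^ 2 * r ^ q.2)) :=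
    (hsum1.mul_of_nonneg hsum2 (fun i => by positivity) (fun l => by positivity)).mul_left C
  have htop : ∑' q, volume (E q) ≠ ⊤ := by
    refine ne_top_of_le_ne_top ?_ (ENNReal.tsum_le_tsum hbound)
    rw [← ENNReal.ofReal_tsum_of_nonneg (fun q => by positivity) hsum]
    exact ENNReal.ofReal_ne_top
  filter_upwards [ae_finite_setOfPred_mem htop] with θ hθ hm
  obtain ⟨I, hI⟩ := (hθ.image Prod.fst).bddAbove
  have hI' : ∀ i > I, ∀ l, θ ∉ E (i, l) := by
    intro i hi l hil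
    have : i ≤ I := hI ⟨(i, l), hil, rfl⟩
    omega
  obtain ⟨I2, hI2⟩ : ∃ I2 : ℕ, I2 = ⌈(3 / θ + 1) / κ⌉₊ + 1 := ⟨_, rfl⟩
  have hD3 : ∀ i ≥ I2, 3 ≤ D g θ (tt i) := by
    intro i hi
    have hi1 : (3 / θ + 1) / κ < i := by
      have h1 := Nat.le_ceil ((3 / θ + 1) / κ)
      have h2 : ((⌈(3 / θ + 1) / κ⌉₊ + 1 : ℕ) : ℝ) ≤ i := by
        rw [← hI2]
        exact_mod_cast hi
      push_cast at h2
      linarith
    rw [div_lt_iff₀ hκ] at hi1
    have h2 : (i : ℝ) ≤ 2 ^ i := by exact_mod_cast (Nat.lt_two_pow_self (n := i)).le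
    have h3 : κ * 2 ^ i < tt i + 1 := by rw [htt]; exact Nat.lt_floor_add_one _
    have h4 : 3 / θ < tt i := by nlinarith
    have h5 : ((tt i : ℕ) : ℝ) ≤ (g : ℝ) ^ tt i := by
      have : tt i ≤ g ^ tt i := (Nat.lt_pow_self (by omega)).le
      exact_mod_cast this
    have h6 : 3 < θ * (g : ℝ) ^ tt i := by
      rw [div_lt_iff₀ hm.1] at h4
      nlinarith [hm.1]
    have h7 : 3 < ⌈θ * (g : ℝ) ^ tt i⌉₊ := by
      rw [Nat.lt_ceil]
      exact_mod_cast h6
    unfold D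
    omega
  have hlog := Real.tendsto_log_atTop
  have hloglog := Real.tendsto_log_atTop.comp Real.tendsto_log_atTop
  have hlogb : ∀ᶠ x : ℝ in atTop, ((I + I2 + 1 : ℕ) : ℝ) ≤ Real.log x := hlog.eventually_ge_atTop _
  filter_upwards [hlog.eventually_ge_atTop 9, hloglog.eventually_ge_atTop c, hlogb,
    eventually_ge_atTop X0, eventually_ge_atTop (1 : ℝ)] with x hx9 hxll hxI hxX hx1 L hL
  have hx0 : (0 : ℝ) < x := by linarith
  simp only [Function.comp_apply] at hxll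
  obtain ⟨u, hu⟩ : ∃ u, u = Real.log (Real.log x) := ⟨_, rfl⟩
  rw [← hu] at hxll
  have hlx0 : 0 < Real.log x := by linarith
  have hL0 : 0 < L := lt_of_lt_of_le (Real.rpow_pos_of_pos hlx0 _) hL
  have hlL : 12 / c * u ≤ Real.log L := by
    have h1 := Real.log_le_log (Real.rpow_pos_of_pos hlx0 _) hL
    rw [Real.log_rpow hlx0, ← hu] at h1
    exact h1
  have hlL12 : 12 ≤ Real.log L := by
    refine le_trans ?_ hlL
    rw [div_mul_eq_mul_div, le_div_iff₀ hc]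
    nlinarith
  have hlL3 : 3 * u ≤ c / 4 * Real.log L := by
    have h1 : c / 4 * (12 / c * u) ≤ c / 4 * Real.log L := mul_le_mul_of_nonneg_left hlL (by positivity)
    have h2 : c / 4 * (12 / c * u) = 3 * u := by
      field_simp
      ring
    linarith
  have hl2 : 0 < Real.log 2 := Real.log_pos (by norm_num)
  have hl21 : Real.log 2 < 1 := by linarith [Real.log_two_lt_d9]
  have hl22 : 1 / 2 < Real.log 2 := by linarith [Real.log_two_gt_d9]
  -- the index `i`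
  obtain ⟨i, hi⟩ : ∃ i, i = ⌈Real.log x / Real.log 2⌉₊ := ⟨_, rfl⟩
  have hi1 : Real.log x / Real.log 2 ≤ i := by rw [hi]; exact Nat.le_ceil _
  have hi2 : (i : ℝ) < Real.log x / Real.log 2 + 1 := by
    rw [hi]
    exact Nat.ceil_lt_add_one (by positivity)
  rw [div_le_iff₀ hl2] at hi1
  have hi3 : (i : ℝ) * Real.log 2 < Real.log x + Real.log 2 := by
    have h1 : (i : ℝ) - 1 < Real.log x / Real.log 2 := by linarith
    rw [lt_div_iff₀ hl2] at h1
    linarith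
  have h2i : (2 : ℝ) ^ i = Real.exp (i * Real.log 2) := by
    rw [Real.exp_nat_mul, Real.exp_log (by norm_num)]
  have hx2i : x ≤ 2 ^ i := by
    rw [h2i, ← Real.log_le_iff_le_exp hx0]
    exact hi1
  have h2ix : (2 : ℝ) ^ i ≤ 2 * x := by
    rw [h2i]
    have h1 : (2 : ℝ) * x = Real.exp (Real.log 2 + Real.log x) := by
      rw [Real.exp_add, Real.exp_log (by norm_num), Real.exp_log hx0]
    rw [h1]
    refine Real.exp_le_exp.2 ?_
    linarith
  have hiI : I + I2 + 1 ≤ i := by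
    have h1 : ((I + I2 + 1 : ℕ) : ℝ) ≤ i := by
      refine hxI.trans ?_
      have : (0 : ℝ) ≤ i := Nat.cast_nonneg i
      nlinarith
    exact_mod_cast h1
  have hi4 : (i : ℝ) < 2 * Real.log x + 1 := by
    have h1 : Real.log x / Real.log 2 ≤ 2 * Real.log x := by
      rw [div_le_iff₀ hl2]
      nlinarith
    linarith
  -- the index `l`
  obtain ⟨l', hl'⟩ : ∃ l', l' = ⌊Real.log L / Real.log 2⌋₊ := ⟨_, rfl⟩
  have hl1' : (l' : ℝ) ≤ Real.log L / Real.log 2 := by rw [hl']; exact Nat.floor_le (by positivity)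
  have hl2' : Real.log L / Real.log 2 < l' + 1 := by rw [hl']; exact Nat.lt_floor_add_one _
  rw [le_div_iff₀ hl2] at hl1'
  rw [div_lt_iff₀ hl2] at hl2'
  obtain ⟨l, hl⟩ : ∃ l, l' = l + 1 := by
    refine ⟨l' - 1, ?_⟩
    have : l' ≠ 0 := by
      intro h0
      rw [h0] at hl2'
      push_cast at hl2'
      linarith
    omega
  rw [hl] at hl1' hl2'
  push_cast at hl1' hl2'
  have hlow : Real.log L / 2 ≤ l * Real.log 2 := by linarith
  have h2l : (2 : ℝ) * 2 ^ l ≤ L := by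
    have h1 : (2 : ℝ) * 2 ^ l = Real.exp ((l + 1) * Real.log 2) := by
      have h2 : (2 : ℝ) * 2 ^ l = 2 ^ (l + 1) := by ring
      rw [h2]
      have h3 := Real.exp_nat_mul (Real.log 2) (l + 1)
      rw [Real.exp_log (by norm_num)] at h3
      rw [← h3]
      push_cast
      rfl
    rw [h1, ← Real.le_log_iff_exp_le hL0]
    exact hl1'
  have hrl : ((i : ℝ) + 1) ^ 2 * r ^ l ≤ 1 := by
    have h1 : r ^ l = Real.exp (-(c / 2 * (l * Real.log 2))) := by
      rw [hr, ← Real.rpow_natCast, ← Real.rpow_mul (by norm_num), Real.rpow_def_of_pos (by norm_num)]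
      ring_nf
    have h2 : r ^ l ≤ Real.exp (-(3 * u)) := by
      rw [h1]
      refine Real.exp_le_exp.2 ?_
      have h3 : c / 2 * (Real.log L / 2) ≤ c / 2 * (l * Real.log 2) :=
        mul_le_mul_of_nonneg_left hlow (by positivity)
      linarith
    have h3 : Real.exp (-(3 * u)) = ((Real.log x) ^ 3)⁻¹ := by
      rw [Real.exp_neg, hu]
      congr 1
      have h4 := Real.exp_nat_mul (Real.log (Real.log x)) 3
      rw [Real.exp_log hlx0] at h4
      rw [← h4]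
      push_cast
      rfl
    have h5 : ((i : ℝ) + 1) ^ 2 ≤ (Real.log x) ^ 3 := by
      have h6 : (i : ℝ) + 1 ≤ 3 * Real.log x := by linarith
      have h7 : ((i : ℝ) + 1) ^ 2 ≤ (3 * Real.log x) ^ 2 :=
        pow_le_pow_left₀ (by positivity) h6 2
      nlinarith [sq_nonneg (Real.log x)]
    calc ((i : ℝ) + 1) ^ 2 * r ^ l ≤ (Real.log x) ^ 3 * ((Real.log x) ^ 3)⁻¹ := by
          rw [← h3]
          gcongr
      _ = 1 := mul_inv_cancel₀ (by positivity)
  -- conclusion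
  have hnot := hI' i (by omega) l
  have hge : c * Real.log ((2 : ℝ) ^ l) ≤
      M S g s w θ ((2 : ℝ) ^ i) ((2 : ℝ) ^ i * (2 : ℝ) ^ l) := by
    by_contra hlt
    push Not at hlt
    exact hnot ((hEm i l θ).2 ⟨hm, hD3 i (by omega), hxX.trans hx2i, hrl, hlt⟩)
  have hmono : M S g s w θ ((2 : ℝ) ^ i) ((2 : ℝ) ^ i * (2 : ℝ) ^ l) ≤ M S g s w θ x (x * L) := by
    refine M_mono θ hx2i ?_
    calc (2 : ℝ) ^ i * (2 : ℝ) ^ l ≤ (2 * x) * (2 : ℝ) ^ l := by gcongr
      _ = x * (2 * 2 ^ l) := by ring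
      _ ≤ x * L := mul_le_mul_of_nonneg_left h2l hx0.le
  have hmono' : (M S g s w θ ((2 : ℝ) ^ i) ((2 : ℝ) ^ i * (2 : ℝ) ^ l) : ℝ) ≤
      M S g s w θ x (x * L) := by exact_mod_cast hmono
  refine le_trans ?_ (hge.trans hmono')
  rw [Real.log_pow]
  calc c / 2 * Real.log L = c * (Real.log L / 2) := by ring
    _ ≤ c * (l * Real.log 2) := mul_le_mul_of_nonneg_left hlow hc.le

/-- There is `δ > 0` such that for every base `g`, every set `S` of primes with at least a constant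
amount of `log p / p` in the windows `(n, Q n]`, there are `κ, c, C > 0` such that for `1 - δ ≤ s ≤ 1`
and all prescribed initial blocks: among the `θ` with given first `t ≤ κ x` digits, at most the proportion
`C L ^ (-c)` has fewer than `c log L` exponents in `(x, x L]`; for almost every `θ`, there are at least
`c log L` exponents in `(x, x L]` for all large `x` and all `L ≥ (log x) ^ C`, and every large `x` is
followed by an exponent that is at most `x (log x) ^ C`. -/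
theorem result :
    (∀ s : ℝ, 0 ≤ s → s ≤ 1 → Fits 2 s (ones s) ∧ ∀ a b : ℝ, M Set.univ 2 s (ones s) 1 a b =
      {p : ℕ | a < p ∧ (p : ℝ) ≤ b ∧ p.Prime ∧ (2 ^ p - 1).Prime}.ncard) ∧
    ∃ δ : ℝ, 0 < δ ∧ δ < 1 ∧ ∀ g : ℕ, 2 ≤ g → ∀ (S : Set ℕ) (Q : ℕ) (v : ℝ), 0 < v →
      (∀ᶠ n : ℕ in atTop, v ≤ V S (Q * n) - V S n) →
      ∃ κ c C : ℝ, 0 < κ ∧ 0 < c ∧ 0 < C ∧
      (∀ᶠ x : ℝ in atTop, ∀ s : ℝ, 1 - δ ≤ s → s ≤ 1 → ∀ w : ℕ → ℕ, Fits g s w →
        ∀ L : ℝ, 1 ≤ L → ∀ t A : ℕ, t ≤ κ * x → 3 ≤ A → A < g ^ t →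
        volume.real {θ : ℝ | θ ∈ Set.Ioc (0 : ℝ) 1 ∧ D g θ t = A ∧
          (M S g s w θ x (x * L) : ℝ) < c * Real.log L} ≤ C * L ^ (-c) * ((g : ℝ) ^ t)⁻¹) ∧
      (∀ s : ℝ, 1 - δ ≤ s → s ≤ 1 → ∀ w : ℕ → ℕ, Fits g s w → ∀ᵐ θ : ℝ, θ ∈ Set.Ioc (0 : ℝ) 1 →
        ∀ᶠ x : ℝ in atTop,
          (∀ L : ℝ, (Real.log x) ^ C ≤ L → c * Real.log L ≤ M S g s w θ x (x * L)) ∧
          ∃ p : ℕ, x < p ∧ p ≤ x * (Real.log x) ^ C ∧ p.Prime ∧ p ∈ S ∧
            (roughPart p (N g s w θ p)).Prime) := by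
  refine ⟨fun s hs0 hs1 => ⟨fun p _ => ?_, fun a b => ?_⟩, ?_⟩
  · unfold ones
    have : 0 < 2 ^ (p - ⌊s * p⌋₊) := by positivity
    omega
  · unfold M
    congr 1
    ext p
    constructor
    · rintro ⟨h1, h2, h3, _, h5⟩
      rw [N_mersenne hs0 hs1, rough_mersenne h3] at h5
      exact ⟨h1, h2, h3, h5⟩
    · rintro ⟨h1, h2, h3, h5⟩
      refine ⟨h1, h2, h3, Set.mem_univ p, ?_⟩
      rw [N_mersenne hs0 hs1, rough_mersenne h3]
      exact h5
  · obtain ⟨δ, hδ, hδ1, h⟩ := dev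
    refine ⟨δ, hδ, hδ1, fun g hg S Q v hv hS => ?_⟩
    obtain ⟨κ, c, C, hκ, hc, hC, hev⟩ := h g hg S Q v hv hS
    obtain ⟨X0, hX0⟩ := eventually_atTop.1 hev
    refine ⟨κ, c / 2, max C (12 / c), hκ, by positivity, lt_of_lt_of_le hC (le_max_left _ _), ?_, ?_⟩
    · filter_upwards [hev] with x hx s hs hs1 w hw L hL t A ht hA3 hAt
      have hlL := Real.log_nonneg hL
      have h1 : {θ : ℝ | θ ∈ Set.Ioc (0 : ℝ) 1 ∧ D g θ t = A ∧
          (M S g s w θ x (x * L) : ℝ) < c / 2 * Real.log L} ⊆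
          {θ : ℝ | θ ∈ Set.Ioc (0 : ℝ) 1 ∧ D g θ t = A ∧
          (M S g s w θ x (x * L) : ℝ) < c * Real.log L} := by
        rintro θ ⟨h1, h2, h3⟩
        refine ⟨h1, h2, lt_of_lt_of_le h3 ?_⟩
        have : 0 ≤ c * Real.log L := by positivity
        linarith
      have hIfin : volume (Set.Ioc (0 : ℝ) 1) ≠ ⊤ := by rw [Real.volume_Ioc]; simp
      have h2 := measureReal_mono (μ := volume) h1
        (ne_top_of_le_ne_top hIfin (measure_mono fun θ hθ => hθ.1))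
      refine h2.trans ((hx s hs hs1 w hw L hL t A ht hA3 hAt).trans ?_)
      refine mul_le_mul_of_nonneg_right ?_ (by positivity)
      refine mul_le_mul (le_max_left _ _) ?_ (by positivity) (le_trans hC.le (le_max_left _ _))
      exact Real.rpow_le_rpow_of_exponent_le hL (by linarith)
    · intro s hs hs1 w hw
      have h1 := every hg (S := S) (s := s) (w := w) hκ hc hC
        (fun x hx L hL t A ht hA3 hAt => hX0 x hx s hs hs1 w hw L hL t A ht hA3 hAt)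
      filter_upwards [h1] with θ hθ hm
      filter_upwards [hθ hm, Real.tendsto_log_atTop.eventually_ge_atTop (2 : ℝ)] with x hx hx2
      have hle : ∀ L : ℝ, (Real.log x) ^ (max C (12 / c)) ≤ L → (Real.log x) ^ (12 / c) ≤ L := by
        intro L hL
        refine le_trans ?_ hL
        exact Real.rpow_le_rpow_of_exponent_le (by linarith) (le_max_right _ _)
      refine ⟨fun L hL => hx L (hle L hL), ?_⟩
      have h2 := hx _ (hle _ le_rfl)
      have h3 : 0 < Real.log ((Real.log x) ^ (max C (12 / c))) := by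
        rw [Real.log_rpow (by linarith)]
        have : 0 < Real.log (Real.log x) := Real.log_pos (by linarith)
        have h4 : 0 < max C (12 / c) := lt_of_lt_of_le hC (le_max_left _ _)
        positivity
      have h5 : (0 : ℝ) < M S g s w θ x (x * (Real.log x) ^ (max C (12 / c))) := by
        refine lt_of_lt_of_le ?_ h2
        positivity
      have h6 : 0 < M S g s w θ x (x * (Real.log x) ^ (max C (12 / c))) := by exact_mod_cast h5
      unfold M at h6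
      rw [Set.ncard_pos (fin_set θ x _)] at h6
      obtain ⟨p, hp⟩ := h6
      exact ⟨p, hp.1, hp.2.1, hp.2.2.1, hp.2.2.2.1, hp.2.2.2.2⟩

end Pool.Agent.Results.MP_9b2bac_nt.EveryWindow
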