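import Pool.Agent.Q120.ME.Main
import Pool.Agent.Q26.ME.DV
import Pool.Agent.Q184.ME.EVT
import Pool.Agent.Q92.ME.CHE
import Pool.Agent.Q285.ME.ASU
import Pool.Agent.Q222.ME.UPL
import Pool.Agent.Q24.ME.FIN
import Pool.Agent.Q24.ME.WAG
import Pool.Agent.Q285.ME.Constr
import Pool.Agent.Q224.ME.ENM
import Pool.Agent.Q224.ME.KLB
import Pool.Agent.Q96.ME.SLL
import Pool.Agent.Q222.ME.LOW
import Pool.Agent.Q96.ME.ASL

/-!
# The number of Mersenne exponents, for all random sets of primes near Wagstaff's model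

Wagstaff's model of the Mersenne exponents contains each prime `p` independently with probability
`wag p = min (1 / 2) (e ^ γ log p / (p log 2))`. For any random set `A` (no independence is assumed) `D μ A x` is the relative entropy (nats) of
the law of the set of the primes below `x` in `A` with respect to the model, and `M (A ω) x` is their number; `cM = e ^ γ / log 2`.
-/

set_option autoImplicit false

namespace Pool.Agent.Results.MP_9b2bac_nt.LawsAtGivenInformation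

open MeasureTheory Filter Pool.Agent.Q120.ET Pool.Agent.Q120.ME
open scoped Topology

theorem jobs : MEJobs where
  asu := Pool.Agent.Q285.ME.t_ASU (Pool.Agent.Q184.ME.t_EVT Pool.Agent.Q26.ME.t_DV) (Pool.Agent.Q92.ME.t_CHE Pool.Agent.Q26.ME.t_GEN)
  asl := Pool.Agent.Q96.ME.t_ASL Pool.Agent.Q285.ME.t_CON Pool.Agent.Q224.ME.t_ENM
  upl := Pool.Agent.Q222.ME.t_UPL Pool.Agent.Q26.ME.t_DV Pool.Agent.Q26.ME.t_GEN
  low := Pool.Agent.Q222.ME.t_LOW Pool.Agent.Q285.ME.t_CON Pool.Agent.Q224.ME.t_ENM Pool.Agent.Q224.ME.t_KLB Pool.Agent.Q96.ME.t_SLL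
  fin := Pool.Agent.Q24.ME.t_FIN (Pool.Agent.Q184.ME.t_EVT Pool.Agent.Q26.ME.t_DV)
  wag := Pool.Agent.Q24.ME.t_WAG

/-- (1) For every nondecreasing `d ≥ 0` all random sets with `D(x) ≤ d x` for large `x` almost surely have `M(x) ~ (e ^ γ / log 2) log x` iff
`∑_p d p / (p log p) < ∞`. (2) A probability measure `ν` is the law of `lim M(x) / log x` for some random set of class `δ`
(`D(x) ≤ (δ + o(1)) log x`) iff it lives on `[0, ∞)` and `∫ (u log (u / c) - u + c) dν ≤ δ`, `c = e ^ γ / log 2`. (3) The largest probability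
that only finitely many primes are in a random set of class `δ` is `min 1 (δ / c)`. -/
theorem result :
    (∀ d : ℕ → ℝ, Monotone d → (∀ n, 0 ≤ d n) →
      ((∀ (Ω : Type) [MeasurableSpace Ω] (μ : Measure Ω) [IsProbabilityMeasure μ] (A : Ω → Set ℕ), IsRandomSet A →
        (∀ᶠ x : ℕ in atTop, D μ A x ≤ d x) → ∀ᵐ ω ∂μ, Tendsto (fun x : ℕ => (M (A ω) x : ℝ) / Real.log x) atTop (𝓝 cM)) ↔
      Summable (fun n : ℕ => if n.Prime then d n / (n * Real.log n) else 0))) ∧
    ∀ δ : ℝ, 0 ≤ δ →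
      (∀ ν : Measure ℝ, IsProbabilityMeasure ν →
        ((∃ (Ω : Type) (_ : MeasurableSpace Ω) (μ : Measure Ω) (_ : IsProbabilityMeasure μ) (A : Ω → Set ℕ) (L : Ω → ℝ), Cls δ μ A ∧
          Measurable L ∧ μ.map L = ν ∧ ∀ᵐ ω ∂μ, Tendsto (fun x : ℕ => (M (A ω) x : ℝ) / Real.log x) atTop (𝓝 (L ω))) ↔
        ν (Set.Iio 0) = 0 ∧ ∫⁻ u, ENNReal.ofReal (u * Real.log (u / cM) - u + cM) ∂ν ≤ ENNReal.ofReal δ)) ∧
      (∀ (Ω : Type) [MeasurableSpace Ω] (μ : Measure Ω) [IsProbabilityMeasure μ] (A : Ω → Set ℕ), Cls δ μ A →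
        μ.real {ω | (A ω ∩ {n | n.Prime}).Finite} ≤ δ / cM) ∧
      ∃ (Ω : Type) (_ : MeasurableSpace Ω) (μ : Measure Ω) (_ : IsProbabilityMeasure μ) (A : Ω → Set ℕ), Cls δ μ A ∧
        μ.real {ω | (A ω ∩ {n | n.Prime}).Finite} = min 1 (δ / cM) :=
  main jobs

end Pool.Agent.Results.MP_9b2bac_nt.LawsAtGivenInformation
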