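import Mathlib
import Pool.Agent.Q160.TB5
import Pool.Agent.W66.LU

set_option autoImplicit false

/-!
# The order of magnitude `log n` with a positive proportion of the digits prescribed

The Mersenne number `2 ^ p - 1` has the binary digits `1 ... 1` (`p` ones).  Let `0 < s < 1`.  For a
sequence `w` of prescribed initial blocks (for instance `w p` the integer with `p - ⌊s p⌋` ones) and
`0 < θ ≤ 1` let `N s w θ p` be the integer whose binary digits are those of `w p` followed by the first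
`⌊s p⌋` binary digits of `θ` (non-terminating expansion), and let `M S s w θ n` be the number of primes
`p ≤ n` in `S` for which the `p`-rough part of `N s w θ p` is prime.  For `w = ones` and `θ = 1` this is
the counting function of the Mersenne primes.  We prove, with Hoheisel's theorem, that there are
`δ, c, C > 0` such that for every `s` in `[1 - δ, 1)`, for all prescribed initial blocks `w` and for
almost every `θ` we have `c log n ≤ M s w θ n ≤ C log n` for all large `n`, with the dichotomy and the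
same bounds for every set of primes.
-/

namespace Pool.Agent.Results.MP_9b2bac_nt.LeadingDigits

open Filter Topology MeasureTheory

/-- The product, with multiplicity, of the prime factors of `m` that are larger than `p`. -/
def roughPart (p m : ℕ) : ℕ := (m.primeFactorsList.filter (fun r => p < r)).prod

/-- The integer formed by the first `n` binary digits of `θ` (non-terminating expansion). -/
noncomputable def D (θ : ℝ) (n : ℕ) : ℕ := ⌈θ * 2 ^ n⌉₊ - 1

/-- The digits of `w p`, followed by the first `⌊s p⌋` binary digits of `θ`. -/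
noncomputable def N (s : ℝ) (w : ℕ → ℕ) (θ : ℝ) (p : ℕ) : ℕ :=
  w p * 2 ^ ⌊s * p⌋₊ + D θ ⌊s * p⌋₊

/-- The integer with `p - ⌊s p⌋` binary digits `1`. -/
noncomputable def ones (s : ℝ) (p : ℕ) : ℕ := 2 ^ (p - ⌊s * p⌋₊) - 1

open Classical in
/-- The number of primes `p ≤ n` in `S` for which the `p`-rough part of `N s w θ p` is prime. -/
noncomputable def M (S : Set ℕ) (s : ℝ) (w : ℕ → ℕ) (θ : ℝ) (n : ℕ) : ℕ :=
  ((Finset.range (n + 1)).filter (fun p => p.Prime ∧ p ∈ S ∧ (roughPart p (N s w θ p)).Prime)).card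

open Classical in
/-- The sum of `log p / p` over the primes `p ≤ n` in `S`. -/
noncomputable def V (S : Set ℕ) (n : ℕ) : ℝ :=
  ∑ p ∈ (Finset.range (n + 1)).filter (fun p => p.Prime ∧ p ∈ S), Real.log p / p

lemma V_eq (S : Set ℕ) (n : ℕ) : V S n = Pool.Agent.TH888.R.VS S n := by
  classical
  unfold V Pool.Agent.TH888.R.VS
  rw [Finset.sum_filter]
  refine Finset.sum_congr rfl fun p _ => ?_
  by_cases h : p.Prime ∧ p ∈ S
  · rw [if_pos h, if_pos ⟨h.2, h.1⟩]
    rfl
  · rw [if_neg h, if_neg fun h1 => h ⟨h1.2, h1.1⟩]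

lemma N_mersenne {s : ℝ} (hs0 : 0 ≤ s) (hs1 : s ≤ 1) (p : ℕ) : N s (ones s) 1 p = 2 ^ p - 1 := by
  have h1 : ⌊s * p⌋₊ ≤ p := by
    refine Nat.floor_le_of_le ?_
    have : (0 : ℝ) ≤ p := Nat.cast_nonneg p
    nlinarith
  obtain ⟨r, hr⟩ : ∃ r, r = ⌊s * p⌋₊ := ⟨_, rfl⟩
  unfold N ones D
  rw [← hr] at h1 ⊢
  have h2 : ⌈(1 : ℝ) * 2 ^ r⌉₊ = 2 ^ r := by
    rw [one_mul]
    exact_mod_cast Nat.ceil_natCast (R := ℝ) (2 ^ r)
  rw [h2, Nat.sub_mul, one_mul, ← pow_add, Nat.sub_add_cancel h1]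
  have h3 : 1 ≤ 2 ^ r := Nat.one_le_two_pow
  have h4 : 2 ^ r ≤ 2 ^ p := Nat.pow_le_pow_right (by norm_num) h1
  omega

lemma rough_mersenne {p : ℕ} (hp : p.Prime) : roughPart p (2 ^ p - 1) = 2 ^ p - 1 :=
  Pool.Agent.W66L.rough_mersenne hp

lemma M_eq (S : Set ℕ) (s : ℝ) (w : ℕ → ℕ) (θ : ℝ) (n : ℕ) :
    M S s w θ n = Pool.Agent.TH888.R.cS S (N s w θ) n := by
  classical
  unfold M Pool.Agent.TH888.R.cS
  rfl

/-- The counting function for `w = ones` and `θ = 1` is that of the Mersenne primes; with a positive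
proportion of the first digits prescribed, the counting function has the order of magnitude `log n` for
almost every choice of the other digits, and for sets of primes the order of magnitude of `V`. -/
theorem result :
    (∀ s : ℝ, 0 ≤ s → s < 1 → (∀ p : ℕ, 1 ≤ p → 0 < ones s p ∧ ones s p < 2 ^ (p - ⌊s * p⌋₊)) ∧
      ∀ n : ℕ, M Set.univ s (ones s) 1 n =
        ((Finset.range (n + 1)).filter (fun p => p.Prime ∧ (2 ^ p - 1).Prime)).card) ∧
    ∃ δ c C : ℝ, 0 < δ ∧ δ < 1 ∧ 0 < c ∧ 0 < C ∧ ∀ s : ℝ, 1 - δ ≤ s → s < 1 →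
      ∀ w : ℕ → ℕ, (∀ p : ℕ, 1 ≤ p → 0 < w p ∧ w p < 2 ^ (p - ⌊s * p⌋₊)) →
      (∀ᵐ θ : ℝ, θ ∈ Set.Ioc (0 : ℝ) 1 → ∀ᶠ n : ℕ in atTop,
        c * Real.log n ≤ M Set.univ s w θ n ∧ (M Set.univ s w θ n : ℝ) ≤ C * Real.log n) ∧
      (∀ S : Set ℕ, Tendsto (V S) atTop atTop → ∀ᵐ θ : ℝ, θ ∈ Set.Ioc (0 : ℝ) 1 →
        ∀ᶠ n : ℕ in atTop, c * V S n ≤ M S s w θ n ∧ (M S s w θ n : ℝ) ≤ C * V S n) ∧
      (∀ S : Set ℕ, ∀ᵐ θ : ℝ, θ ∈ Set.Ioc (0 : ℝ) 1 →
        ({p : ℕ | p.Prime ∧ p ∈ S ∧ (roughPart p (N s w θ p)).Prime}.Infinite ↔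
          Tendsto (V S) atTop atTop)) := by
  classical
  have hV : ∀ S, V S = Pool.Agent.TH888.R.VS S := fun S => funext fun n => V_eq S n
  refine ⟨fun s hs0 hs1 => ⟨fun p hp => ?_, fun n => ?_⟩, ?_⟩
  · have hlt : ⌊s * p⌋₊ < p := by
      rw [Nat.floor_lt (by positivity)]
      have : (1 : ℝ) ≤ p := by exact_mod_cast hp
      nlinarith
    have h2 : 2 ≤ 2 ^ (p - ⌊s * p⌋₊) := by
      calc 2 = 2 ^ 1 := by norm_num
        _ ≤ _ := Nat.pow_le_pow_right (by norm_num) (by omega)
    unfold ones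
    omega
  · unfold M
    congr 1
    ext p
    simp only [Finset.mem_filter, Set.mem_univ, true_and]
    refine and_congr_right fun _ => and_congr_right fun hp => ?_
    rw [N_mersenne hs0 hs1.le, rough_mersenne hp]
  · obtain ⟨δ, hδ, hδ2, h⟩ := Pool.Agent.Q160.TB.fam_pt
    obtain ⟨c1, c2, hc1, hc2, hpt⟩ := h 2 le_rfl (1 / 2) (by norm_num) 1
    refine ⟨δ / 2, c1 / 2, 2 * c2, by positivity, by linarith, by positivity, by positivity,
      fun s hs hs1 w hw => ?_⟩
    have hF : Pool.Agent.Q160.TB.Fam 2 (1 / 2) 1 (1 + δ) (fun p => w p * 2 ^ ⌊s * p⌋₊)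
        (fun p => ⌊s * p⌋₊) := by
      have h1 := Pool.Agent.Q160.TB.fam_exp (g := 2) le_rfl (lam := 1) one_pos hδ hδ2 hs hs1.le
        (c := fun p => w p * 2 ^ ⌊s * (1 * (p : ℝ))⌋₊) (C0 := 1) (by
          filter_upwards [eventually_ge_atTop 1] with p hp
          exact Nat.le_mul_of_pos_left _ (hw p hp).1) (by
          filter_upwards [eventually_ge_atTop 1] with p hp
          have h2 := (hw p hp).2
          have h3 : ⌊s * (p : ℝ)⌋₊ ≤ p := by
            refine Nat.floor_le_of_le ?_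
            have : (0 : ℝ) ≤ p := Nat.cast_nonneg p
            nlinarith
          have h4 : w p * 2 ^ ⌊s * (p : ℝ)⌋₊ ≤ 2 ^ p := by
            calc w p * 2 ^ ⌊s * (p : ℝ)⌋₊ ≤ 2 ^ (p - ⌊s * (p : ℝ)⌋₊) * 2 ^ ⌊s * (p : ℝ)⌋₊ :=
                  Nat.mul_le_mul_right _ h2.le
              _ = 2 ^ p := by rw [← pow_add, Nat.sub_add_cancel h3]
          have h5 : Real.exp (Real.log ((2 : ℕ) : ℝ) * (1 * (p : ℝ))) = (2 : ℝ) ^ p := by
            rw [one_mul, mul_comm, Real.exp_nat_mul, Real.exp_log (by norm_num)]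
            norm_num
          rw [h5, one_mul, one_mul]
          exact_mod_cast h4)
      simp only [one_mul, Nat.ceil_one] at h1
      exact h1
    have hall : ∀ S : Set ℕ, ∀ᵐ θ : ℝ, θ ∈ Set.Ioc (0 : ℝ) 1 →
        Pool.Agent.Q160.TB.PtO (N s w θ) c1 c2 S := by
      intro S
      have h1 := hpt (1 + δ) _ _ (by linarith) le_rfl hF (Pool.Agent.Q160.TB.top_ceil le_rfl) S
      rw [ae_restrict_iff' measurableSet_Ioc] at h1
      filter_upwards [h1] with θ hθ hm
      have h2 := hθ hm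
      simp only [Nat.cast_ofNat] at h2
      exact h2
    refine ⟨?_, fun S hS => ?_, fun S => ?_⟩
    · filter_upwards [hall Set.univ] with θ hθ hm
      simp only [M_eq]
      exact (hθ hm).log hc1 hc2
    · rw [hV] at hS ⊢
      filter_upwards [hall S] with θ hθ hm
      filter_upwards [(hθ hm).law hS] with n hn
      have h0 := Pool.Agent.TH888.R.VS_nonneg S n
      rw [M_eq]
      constructor
      · nlinarith [hn.1]
      · nlinarith [hn.2]
    · rw [hV]
      filter_upwards [hall S] with θ hθ hm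
      constructor
      · intro hi
        by_contra hn
        exact hi ((hθ hm).fin hn)
      · intro hS hfin
        have h1 := (hθ hm).law hS
        have h2 : ∀ n, (Pool.Agent.TH888.R.cS S (N s w θ) n : ℝ) ≤ (hfin.toFinset.card : ℝ) := by
          intro n
          unfold Pool.Agent.TH888.R.cS
          refine Nat.cast_le.2 (Finset.card_le_card ?_)
          intro p hp
          rw [Finset.mem_filter] at hp
          rw [Set.Finite.mem_toFinset]
          exact hp.2
        obtain ⟨n, hn1, hn2⟩ := (h1.and (hS.eventually_gt_atTop ((hfin.toFinset.card : ℝ) / c1))).exists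
        rw [div_lt_iff₀ hc1] at hn2
        have := h2 n
        linarith [hn1.1]

end Pool.Agent.Results.MP_9b2bac_nt.LeadingDigits
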