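import Mathlib
import Pool.Agent.W157.MX.Chain2
import Pool.Agent.W157.MX.Low
import Pool.Agent.W66.LU
import Pool.Agent.H387R2.U3

set_option autoImplicit false

/-!
# The largest gaps between exponents of Mersenne type

The Mersenne number `2 ^ p - 1` has the binary digits `1 ... 1` (`p` ones).  Let `0 < s ≤ 1`.  For a
sequence `w` of prescribed initial blocks and `0 < θ ≤ 1` let `N g s w θ p` be the integer whose digits
in base `g` are those of `w p` followed by the first `⌊s p⌋` digits of `θ` (non-terminating expansion),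
and call a prime `p` an exponent for `θ` if the `p`-rough part of `N g s w θ p` is prime.  For `g = 2`,
`w = ones` and `θ = 1` (and also for `s = 1`, `w = 0` and `θ = 1`) the exponents are those of the
Mersenne primes.  The heuristics for the Mersenne exponents say that `log p` runs through a set that
looks like a Poisson process with a constant density, so that the largest ratio of two consecutive
exponents up to `x` is a power of `log x`.  For almost every `θ` we determine the order of magnitude of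
the exponent of this power, uniformly in the base and for the exponents in a residue class: it lies
between `c φ(q) log g` and `C φ(q) log g`, where the lower bound needs `φ(q) log g ≥ C`.
-/

namespace Pool.Agent.Results.MP_9b2bac_nt.MaximalGaps

open Filter Topology MeasureTheory

/-- The product, with multiplicity, of the prime factors of `m` that are larger than `p`. -/
def roughPart (p m : ℕ) : ℕ := (m.primeFactorsList.filter (fun r => p < r)).prod

/-- The integer formed by the first `n` digits of `θ` in base `g` (non-terminating expansion). -/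
noncomputable def D (g : ℕ) (θ : ℝ) (n : ℕ) : ℕ := ⌈θ * (g : ℝ) ^ n⌉₊ - 1

/-- The digits of `w p`, followed by the first `⌊s p⌋` digits of `θ`. -/
noncomputable def N (g : ℕ) (s : ℝ) (w : ℕ → ℕ) (θ : ℝ) (p : ℕ) : ℕ :=
  w p * g ^ ⌊s * p⌋₊ + D g θ ⌊s * p⌋₊

/-- `w p` has at most `p - ⌊s p⌋` digits in base `g`. -/
def Fits (g : ℕ) (s : ℝ) (w : ℕ → ℕ) : Prop := ∀ p : ℕ, 1 ≤ p → w p < g ^ (p - ⌊s * p⌋₊)

/-- The integer with `p - ⌊s p⌋` binary digits `1`. -/
noncomputable def ones (s : ℝ) (p : ℕ) : ℕ := 2 ^ (p - ⌊s * p⌋₊) - 1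

/-- The number of primes `p` in `S` with `a < p ≤ b` for which the `p`-rough part of `N g s w θ p` is
prime. -/
noncomputable def M (S : Set ℕ) (g : ℕ) (s : ℝ) (w : ℕ → ℕ) (θ a b : ℝ) : ℕ :=
  {p : ℕ | a < p ∧ (p : ℝ) ≤ b ∧ p.Prime ∧ p ∈ S ∧ (roughPart p (N g s w θ p)).Prime}.ncard

open Classical in
/-- The sum of `log p / p` over the primes `p ≤ n` in `S`. -/
noncomputable def V (S : Set ℕ) (n : ℕ) : ℝ :=
  ∑ p ∈ (Finset.range (n + 1)).filter (fun p => p.Prime ∧ p ∈ S), Real.log p / p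

lemma V_eq (S : Set ℕ) (n : ℕ) : V S n = Pool.Agent.TH888.R.VS S n := by
  classical
  unfold V Pool.Agent.TH888.R.VS
  rw [Finset.sum_filter]
  refine Finset.sum_congr rfl fun p _ => ?_
  by_cases h : p.Prime ∧ p ∈ S
  · rw [if_pos h, if_pos ⟨h.2, h.1⟩]
    rfl
  · rw [if_neg h, if_neg fun h1 => h ⟨h1.2, h1.1⟩]

lemma N_mersenne {s : ℝ} (hs0 : 0 ≤ s) (hs1 : s ≤ 1) (p : ℕ) : N 2 s (ones s) 1 p = 2 ^ p - 1 := by
  have h1 : ⌊s * p⌋₊ ≤ p := by
    refine Nat.floor_le_of_le ?_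
    have : (0 : ℝ) ≤ p := Nat.cast_nonneg p
    nlinarith
  obtain ⟨r, hr⟩ : ∃ r, r = ⌊s * p⌋₊ := ⟨_, rfl⟩
  unfold N ones D
  rw [← hr] at h1 ⊢
  have h2 : ⌈(1 : ℝ) * ((2 : ℕ) : ℝ) ^ r⌉₊ = 2 ^ r := by
    rw [one_mul]
    exact_mod_cast Nat.ceil_natCast (R := ℝ) (2 ^ r)
  rw [h2, Nat.sub_mul, one_mul, ← pow_add, Nat.sub_add_cancel h1]
  have h3 : 1 ≤ 2 ^ r := Nat.one_le_two_pow
  have h4 : 2 ^ r ≤ 2 ^ p := Nat.pow_le_pow_right (by norm_num) h1
  omega

lemma rough_mersenne {p : ℕ} (hp : p.Prime) : roughPart p (2 ^ p - 1) = 2 ^ p - 1 :=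
  Pool.Agent.W66L.rough_mersenne hp

section

variable {S : Set ℕ} {g : ℕ} {s : ℝ} {w : ℕ → ℕ}

lemma fin_set (θ a b : ℝ) :
    {p : ℕ | a < p ∧ (p : ℝ) ≤ b ∧ p.Prime ∧ p ∈ S ∧ (roughPart p (N g s w θ p)).Prime}.Finite := by
  refine (Set.finite_le_nat ⌊b⌋₊).subset fun p hp => ?_
  exact Nat.le_floor hp.2.1

lemma M_mono (θ : ℝ) {a a' b b' : ℝ} (ha : a' ≤ a) (hb : b ≤ b') :
    M S g s w θ a b ≤ M S g s w θ a' b' := by
  unfold M
  refine Set.ncard_le_ncard ?_ (fin_set θ a' b')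
  intro p hp
  exact ⟨lt_of_le_of_lt ha hp.1, hp.2.1.trans hb, hp.2.2⟩

end

/-- the deviation bound -/
theorem dev : ∃ δ c' C : ℝ, 0 < δ ∧ δ < 1 ∧ 0 < c' ∧ 0 < C ∧ ∀ g : ℕ, 2 ≤ g → ∀ (S : Set ℕ) (a : ℝ),
    0 < a → (∀ᶠ n : ℕ in atTop, a ≤ V S (2 * n) - V S n) →
    ∃ κ : ℝ, 0 < κ ∧ ∀ c : ℝ, 0 < c → c ≤ c' * (a / Real.log g) → ∀ᶠ x : ℝ in atTop, ∀ s : ℝ, 1 - δ ≤ s → s ≤ 1 →
      ∀ w : ℕ → ℕ, Fits g s w → ∀ L : ℝ, 1 ≤ L → ∀ t A : ℕ, t ≤ κ * x → 3 ≤ A → A < g ^ t →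
      volume.real {θ : ℝ | θ ∈ Set.Ioc (0 : ℝ) 1 ∧ D g θ t = A ∧
        (M S g s w θ x (x * L) : ℝ) < c * Real.log L} ≤ C * L ^ (-c) * ((g : ℝ) ^ t)⁻¹ := by
  classical
  obtain ⟨δ, c0, C0, hδ, hδ1, hc0, hc01, hC0, h⟩ := Pool.Agent.W157.MG.dev_block2
  refine ⟨δ, c0 / (4 * C0), Real.exp c0, hδ, hδ1, by positivity, Real.exp_pos _,
    fun g hg S v hv hS => ?_⟩
  have hV : ∀ n, V S n = Pool.Agent.TH888.R.VS S n := fun n => V_eq S n
  simp only [hV] at hS
  obtain ⟨K, hK2, hKlog, hev⟩ := h g hg S v hv hS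
  obtain ⟨Z, hZ⟩ := eventually_atTop.1 hev
  have hKr : (2 : ℝ) ≤ K := by exact_mod_cast hK2
  have hK0 : (0 : ℝ) < K := by linarith
  obtain ⟨lK, hlK⟩ : ∃ lK, lK = Real.log K := ⟨_, rfl⟩
  have hlK0 : 0 < lK := by rw [hlK]; exact Real.log_pos (by linarith)
  have hlg0 : 0 < Real.log g := Real.log_pos (by exact_mod_cast (by omega : 1 < g))
  refine ⟨1 / K, by positivity, fun c hcpos hcle => ?_⟩
  have hcK : 4 * lK * c ≤ c0 := by
    have h1 : lK ≤ C0 * (Real.log g / v) := by rw [hlK]; exact hKlog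
    have h2 : 4 * (C0 * (Real.log g / v)) * (c0 / (4 * C0) * (v / Real.log g)) = c0 := by
      field_simp
    calc 4 * lK * c ≤ 4 * (C0 * (Real.log g / v)) * (c0 / (4 * C0) * (v / Real.log g)) := by
          gcongr
      _ = c0 := h2
  filter_upwards [eventually_ge_atTop (K * Z : ℝ), eventually_ge_atTop (2 : ℝ)] with x hx hx2
    s hs hs1 w hw L hL t A ht hA3 hAt
  obtain ⟨z0, hz0⟩ : ∃ z0, z0 = ⌈x / K⌉₊ := ⟨_, rfl⟩
  have hz1 : x / K ≤ z0 := by rw [hz0]; exact Nat.le_ceil _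
  have hz2 : (z0 : ℝ) < x / K + 1 := by rw [hz0]; exact Nat.ceil_lt_add_one (by positivity)
  have hzZ : Z ≤ z0 := by
    have : (Z : ℝ) ≤ z0 := by
      refine le_trans ?_ hz1
      rw [le_div_iff₀ hK0]
      linarith
    exact_mod_cast this
  have htz : t ≤ z0 := by
    have : (t : ℝ) ≤ z0 := by
      refine ht.trans (le_trans (le_of_eq ?_) hz1)
      ring
    exact_mod_cast this
  have hxK : x ≤ K * z0 := by
    rw [div_le_iff₀ hK0] at hz1
    linarith
  have hzx : (z0 : ℝ) ≤ x := by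
    have : x / K ≤ x / 2 := div_le_div_of_nonneg_left (by linarith) (by norm_num) hKr
    linarith
  have hL0 : (0 : ℝ) < L := by linarith
  have hlL : 0 ≤ Real.log L := Real.log_nonneg hL
  obtain ⟨J, hJ⟩ : ∃ J, J = ⌊Real.log L / (2 * lK)⌋₊ := ⟨_, rfl⟩
  have hJ1 : (J : ℝ) ≤ Real.log L / (2 * lK) := by rw [hJ]; exact Nat.floor_le (by positivity)
  have hJ2 : Real.log L / (2 * lK) < J + 1 := by rw [hJ]; exact Nat.lt_floor_add_one _
  have hKJ : (K : ℝ) ^ (2 * J) ≤ L := by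
    have e : (K : ℝ) ^ (2 * J) = Real.exp (2 * J * lK) := by
      have h1 : (K : ℝ) = Real.exp lK := by rw [hlK, Real.exp_log hK0]
      rw [h1, ← Real.exp_nat_mul]
      push_cast
      ring_nf
    rw [e, ← Real.le_log_iff_exp_le hL0]
    rw [le_div_iff₀ (by positivity)] at hJ1
    linarith
  have hmain := hZ z0 hzZ s hs hs1 w hw (Pool.Agent.Q160.TB.top_ceil hg) t A J htz hA3 hAt
    (fun θ => M S g s w θ x (x * L)) (c * Real.log L) (by
      intro θ F hF
      have h1 : (F : Set ℕ) ⊆ {p : ℕ | x < p ∧ (p : ℝ) ≤ x * L ∧ p.Prime ∧ p ∈ S ∧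
          (roughPart p (N g s w θ p)).Prime} := by
        intro p hp
        obtain ⟨h1, h2, h3, h4, h5⟩ := hF p hp
        refine ⟨?_, ?_, h3, h4, h5⟩
        · have : ((K * z0 : ℕ) : ℝ) < p := by exact_mod_cast h1
          push_cast at this
          linarith
        · have h6 : (p : ℝ) ≤ ((K ^ (2 * J) * z0 : ℕ) : ℝ) := by exact_mod_cast h2
          push_cast at h6
          refine h6.trans ?_
          calc (K : ℝ) ^ (2 * J) * z0 ≤ L * x := by gcongr
            _ = x * L := by ring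
      have h2 := Set.ncard_le_ncard h1 (fin_set θ x (x * L))
      rw [Set.ncard_coe_finset] at h2
      exact h2)
  have hset : volume.real {θ : ℝ | θ ∈ Set.Ioc (0 : ℝ) 1 ∧ D g θ t = A ∧
      (M S g s w θ x (x * L) : ℝ) < c * Real.log L} =
      (volume.restrict (Set.Ioc (0 : ℝ) 1)).real {θ : ℝ | ⌈θ * (g : ℝ) ^ t⌉₊ - 1 = A ∧
      (M S g s w θ x (x * L) : ℝ) < c * Real.log L} := by
    rw [measureReal_def, measureReal_def, Measure.restrict_apply' measurableSet_Ioc]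
    congr 2
    ext θ
    constructor
    · rintro ⟨h1, h2, h3⟩
      exact ⟨⟨h2, h3⟩, h1⟩
    · rintro ⟨⟨h2, h3⟩, h1⟩
      exact ⟨h1, h2, h3⟩
  rw [hset]
  refine hmain.trans ?_
  rw [← mul_assoc]
  refine mul_le_mul_of_nonneg_right ?_ (by positivity)
  have h2c : (2 : ℝ) ^ (c * Real.log L) ≤ Real.exp (c * Real.log L) := by
    rw [Real.rpow_def_of_pos (by norm_num : (0 : ℝ) < 2)]
    refine Real.exp_le_exp.2 ?_
    have h1 : Real.log 2 ≤ 1 := by linarith [Real.log_two_lt_d9]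
    have h2 : 0 ≤ c * Real.log L := by positivity
    nlinarith
  have h1c : (1 - c0) ^ J ≤ Real.exp (-(c0 * J)) := by
    have h1 : 1 - c0 ≤ Real.exp (-c0) := by
      have := Real.add_one_le_exp (-c0)
      linarith
    calc (1 - c0) ^ J ≤ (Real.exp (-c0)) ^ J := pow_le_pow_left₀ (by linarith) h1 J
      _ = Real.exp (-(c0 * J)) := by rw [← Real.exp_nat_mul]; ring_nf
  calc (2 : ℝ) ^ (c * Real.log L) * (1 - c0) ^ J ≤
        Real.exp (c * Real.log L) * Real.exp (-(c0 * J)) := by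
          refine mul_le_mul h2c h1c (by
            have : 0 ≤ 1 - c0 := by linarith
            positivity) (Real.exp_pos _).le
    _ = Real.exp (c * Real.log L - c0 * J) := by rw [← Real.exp_add]; ring_nf
    _ ≤ Real.exp (c0 - c * Real.log L) := by
          refine Real.exp_le_exp.2 ?_
          have h3 : c0 * (Real.log L / (2 * lK)) ≤ c0 * (J + 1) := mul_le_mul_of_nonneg_left hJ2.le hc0.le
          have h4 : 2 * (c * Real.log L) ≤ c0 * (Real.log L / (2 * lK)) := by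
            have h5 : 4 * lK * c * (Real.log L / (2 * lK)) ≤ c0 * (Real.log L / (2 * lK)) :=
              mul_le_mul_of_nonneg_right hcK (by positivity)
            refine le_trans (le_of_eq ?_) h5
            field_simp
            ring
          linarith
    _ = Real.exp c0 * L ^ (-c) := by
          rw [Real.rpow_def_of_pos hL0, ← Real.exp_add]
          ring_nf


/-- the lower bound for the probability of a window without exponents -/
theorem low : ∃ C : ℝ, 0 < C ∧ ∀ g : ℕ, 2 ≤ g → ∀ (S : Set ℕ) (b : ℝ), 0 < b → C * b ≤ Real.log g →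
    (∀ᶠ n : ℕ in atTop, V S (2 * n) - V S n ≤ b) →
    ∀ᶠ x : ℝ in atTop, ∀ s : ℝ, 31 / 32 ≤ s → s ≤ 1 →
      ∀ w : ℕ → ℕ, Fits g s w → ∀ L : ℝ, 1 ≤ L → ∀ t A : ℕ, (t : ℝ) ≤ x / 32 → 1 ≤ A → A < g ^ t →
      Real.exp (-2) * L ^ (-(C * (b / Real.log g))) * ((g : ℝ) ^ t)⁻¹ ≤
      volume.real {θ : ℝ | θ ∈ Set.Ioc (0 : ℝ) 1 ∧ D g θ t = A ∧ M S g s w θ x (x * L) = 0} := by
  classical
  obtain ⟨C, hC, h⟩ := Pool.Agent.W157.MG.low_main
  refine ⟨2 * C, by positivity, fun g hg S b hb hbg hS => ?_⟩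
  have hV : ∀ n, V S n = Pool.Agent.TH888.R.VS S n := fun n => V_eq S n
  simp only [hV] at hS
  have hlg0 : 0 < Real.log g := Real.log_pos (by exact_mod_cast (by omega : 1 < g))
  obtain ⟨Z, hZ⟩ := eventually_atTop.1 (h g hg S b hb (by nlinarith) hS)
  filter_upwards [eventually_ge_atTop ((Z : ℝ) + 1), eventually_ge_atTop (2 : ℝ)] with x hx hx2
    s hs hs1 w hw L hL t A ht hA1 hAt
  obtain ⟨z0, hz0⟩ : ∃ z0, z0 = ⌊x⌋₊ := ⟨_, rfl⟩
  have hz1 : (z0 : ℝ) ≤ x := by rw [hz0]; exact Nat.floor_le (by linarith)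
  have hz2 : x < z0 + 1 := by rw [hz0]; exact Nat.lt_floor_add_one _
  have hzZ : Z ≤ z0 := by
    have : (Z : ℝ) ≤ z0 := by linarith
    exact_mod_cast this
  have htz : 16 * t ≤ z0 := by
    have : (16 : ℝ) * t ≤ z0 := by linarith
    exact_mod_cast this
  have hL0 : (0 : ℝ) < L := by linarith
  have hlL : 0 ≤ Real.log L := Real.log_nonneg hL
  have hl2 : 0 < Real.log 2 := Real.log_pos (by norm_num)
  have hl2' : 1 / 2 < Real.log 2 := by linarith [Real.log_two_gt_d9]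
  obtain ⟨J, hJ⟩ : ∃ J, J = ⌈Real.log L / Real.log 2⌉₊ + 1 := ⟨_, rfl⟩
  have hJ1 : Real.log L / Real.log 2 + 1 ≤ J := by
    rw [hJ]
    push_cast
    linarith [Nat.le_ceil (Real.log L / Real.log 2)]
  have hJ2 : (J : ℝ) ≤ 2 * Real.log L + 2 := by
    rw [hJ]
    push_cast
    have h1 := (Nat.ceil_lt_add_one (div_nonneg hlL hl2.le)).le
    have h2 : Real.log L / Real.log 2 ≤ 2 * Real.log L := by
      rw [div_le_iff₀ hl2]
      nlinarith
    linarith
  have h2J : 2 * L ≤ (2 : ℝ) ^ J := by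
    have e : (2 : ℝ) ^ J = Real.exp (J * Real.log 2) := by
      rw [Real.exp_nat_mul, Real.exp_log (by norm_num)]
    have e2 : 2 * L = Real.exp ((Real.log L / Real.log 2 + 1) * Real.log 2) := by
      have h1 : (Real.log L / Real.log 2 + 1) * Real.log 2 = Real.log 2 + Real.log L := by
        field_simp
        ring
      rw [h1, Real.exp_add, Real.exp_log (by norm_num), Real.exp_log hL0]
    rw [e, e2]
    exact Real.exp_le_exp.2 (mul_le_mul_of_nonneg_right hJ1 hl2.le)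
  obtain ⟨n, hn⟩ : ∃ n, n = 2 ^ J * z0 := ⟨_, rfl⟩
  have hxn : x * L ≤ n := by
    rw [hn]
    push_cast
    have h1 : x ≤ 2 * z0 := by linarith
    calc x * L ≤ 2 * z0 * L := mul_le_mul_of_nonneg_right h1 hL0.le
      _ = 2 * L * z0 := by ring
      _ ≤ _ := mul_le_mul_of_nonneg_right h2J (Nat.cast_nonneg _)
  have htn : t ≤ n := by
    rw [hn]
    have : z0 ≤ 2 ^ J * z0 := Nat.le_mul_of_pos_left _ (by positivity)
    omega
  have hmain := hZ z0 hzZ s hs hs1 w hw t A J htz hA1 hAt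
  rw [← hn] at hmain
  have hX := Pool.Agent.Q160.TB.top_ceil hg
  obtain ⟨f, hf⟩ : ∃ f : ℕ → ℝ, f = Pool.Agent.W157.MG.emp g z0 t A S
    (fun p => w p * g ^ ⌊s * p⌋₊) (fun p => ⌊s * p⌋₊) n := ⟨_, rfl⟩
  have hint := hX.integral hg n f
  have hpe : Pool.Agent.W157.MG.pe g z0 t A S (fun p => w p * g ^ ⌊s * p⌋₊) (fun p => ⌊s * p⌋₊) n =
      ∫ θ, f (⌈θ * (g : ℝ) ^ n⌉₊ - 1) ∂(volume.restrict (Set.Ioc (0 : ℝ) 1)) := by
    rw [hint, hf]
    rfl
  rw [hpe] at hmain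
  haveI : IsProbabilityMeasure (volume.restrict (Set.Ioc (0 : ℝ) 1)) := by
    refine ⟨?_⟩
    rw [Measure.restrict_apply_univ, Real.volume_Ioc]
    simp
  obtain ⟨E, hE⟩ : ∃ E : Set ℝ, E = {θ : ℝ | f (⌈θ * (g : ℝ) ^ n⌉₊ - 1) ≠ 0} := ⟨_, rfl⟩
  have hEm : MeasurableSet E := by
    have h1 : E = (fun θ : ℝ => ⌈θ * (g : ℝ) ^ n⌉₊ - 1) ⁻¹' {u | f u ≠ 0} := by
      rw [hE]
      rfl
    rw [h1]
    exact hX.meas n (MeasurableSet.of_discrete)
  have hfE : ∀ θ : ℝ, f (⌈θ * (g : ℝ) ^ n⌉₊ - 1) = E.indicator (fun _ => (1 : ℝ)) θ := by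
    intro θ
    by_cases h1 : f (⌈θ * (g : ℝ) ^ n⌉₊ - 1) = 0
    · rw [h1, Set.indicator_of_notMem]
      rw [hE]
      intro h2
      exact h2 h1
    · rw [Set.indicator_of_mem (by rw [hE]; exact h1)]
      have h2 := h1
      rw [hf] at h2
      have h3 := Pool.Agent.W157.MG.emp_one h2
      rw [hf]
      unfold Pool.Agent.W157.MG.emp
      rw [if_pos h3]
  simp only [hfE] at hmain
  rw [integral_indicator hEm, setIntegral_const, smul_eq_mul, mul_one] at hmain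
  have hsub : Set.Ioc (0 : ℝ) 1 ∩ E ⊆
      {θ : ℝ | θ ∈ Set.Ioc (0 : ℝ) 1 ∧ D g θ t = A ∧ M S g s w θ x (x * L) = 0} := by
    rintro θ ⟨hθ, hθE⟩
    rw [hE] at hθE
    have h1 : f (⌈θ * (g : ℝ) ^ n⌉₊ - 1) ≠ 0 := hθE
    rw [hf] at h1
    obtain ⟨h2, h3⟩ := Pool.Agent.W157.MG.emp_one h1
    have hcompat : ∀ m, m ≤ n → (⌈θ * (g : ℝ) ^ n⌉₊ - 1) / g ^ (n - m) = D g θ m :=
      fun m hm => hX.compat m n θ hm
    rw [hcompat t htn] at h2
    refine ⟨hθ, h2, ?_⟩
    unfold M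
    rw [Set.ncard_eq_zero (fin_set θ x (x * L))]
    ext p
    simp only [Set.mem_setOf_eq, Set.mem_empty_iff_false, iff_false]
    rintro ⟨hp1, hp2, hp3, hp4, hp5⟩
    have hzp : z0 < p := by
      have : (z0 : ℝ) < p := by linarith
      exact_mod_cast this
    have hpn : p ≤ n := by
      have : (p : ℝ) ≤ n := by linarith
      exact_mod_cast this
    have hrp : ⌊s * p⌋₊ ≤ n := by
      refine le_trans ?_ hpn
      refine Nat.floor_le_of_le ?_
      have : (0 : ℝ) ≤ p := Nat.cast_nonneg p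
      nlinarith
    have h4 := h3 p hzp hpn hp3 hp4
    rw [hcompat _ hrp] at h4
    exact h4 hp5
  have hfin : volume {θ : ℝ | θ ∈ Set.Ioc (0 : ℝ) 1 ∧ D g θ t = A ∧ M S g s w θ x (x * L) = 0} ≠ ⊤ := by
    refine ne_top_of_le_ne_top ?_ (measure_mono fun θ hθ => hθ.1)
    rw [Real.volume_Ioc]
    simp
  have hEle : (volume.restrict (Set.Ioc (0 : ℝ) 1)).real E ≤
      volume.real {θ : ℝ | θ ∈ Set.Ioc (0 : ℝ) 1 ∧ D g θ t = A ∧ M S g s w θ x (x * L) = 0} := by
    rw [measureReal_def, Measure.restrict_apply hEm, Set.inter_comm, ← measureReal_def]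
    exact measureReal_mono hsub hfin
  refine le_trans ?_ (hmain.trans hEle)
  refine mul_le_mul_of_nonneg_right ?_ (by positivity)
  rw [Real.rpow_def_of_pos hL0, ← Real.exp_add]
  refine Real.exp_le_exp.2 ?_
  have h1 : C * b / Real.log g ≤ 1 := by
    rw [div_le_one hlg0]
    nlinarith
  have h2 : 0 ≤ C * b / Real.log g := by positivity
  have e : Real.log L * -(2 * C * (b / Real.log g)) = -(C * b / Real.log g * (2 * Real.log L)) := by
    field_simp
  rw [e]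
  nlinarith
/-- every window, at almost every point -/
theorem every {g : ℕ} (hg : 2 ≤ g) {S : Set ℕ} {s : ℝ} {w : ℕ → ℕ} {κ c C X0 : ℝ} (hκ : 0 < κ)
    (hc : 0 < c) (hC : 0 < C)
    (hdev : ∀ x ≥ X0, ∀ L : ℝ, 1 ≤ L → ∀ t A : ℕ, t ≤ κ * x → 3 ≤ A → A < g ^ t →
      volume.real {θ : ℝ | θ ∈ Set.Ioc (0 : ℝ) 1 ∧ D g θ t = A ∧
        (M S g s w θ x (x * L) : ℝ) < c * Real.log L} ≤ C * L ^ (-c) * ((g : ℝ) ^ t)⁻¹) :
    ∀ᵐ θ : ℝ, θ ∈ Set.Ioc (0 : ℝ) 1 → ∀ᶠ x : ℝ in atTop, ∀ L : ℝ, (Real.log x) ^ (12 / c) ≤ L →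
      c / 2 * Real.log L ≤ M S g s w θ x (x * L) := by
  classical
  obtain ⟨r, hr⟩ : ∃ r : ℝ, r = (2 : ℝ) ^ (-(c / 2)) := ⟨_, rfl⟩
  have hr0 : 0 < r := by rw [hr]; positivity
  have hr1 : r < 1 := by
    rw [hr]
    exact Real.rpow_lt_one_of_one_lt_of_neg (by norm_num) (by linarith)
  have hgr : (2 : ℝ) ≤ g := by exact_mod_cast hg
  have hg0 : (0 : ℝ) < g := by linarith
  obtain ⟨tt, htt⟩ : ∃ tt : ℕ → ℕ, tt = fun i => ⌊κ * 2 ^ i⌋₊ := ⟨_, rfl⟩
  obtain ⟨E, hE⟩ : ∃ E : ℕ × ℕ → Set ℝ, E = fun q => {θ : ℝ | θ ∈ Set.Ioc (0 : ℝ) 1 ∧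
      3 ≤ D g θ (tt q.1) ∧ X0 ≤ (2 : ℝ) ^ q.1 ∧ ((q.1 : ℝ) + 1) ^ 2 * r ^ q.2 ≤ 1 ∧
      (M S g s w θ ((2 : ℝ) ^ q.1) ((2 : ℝ) ^ q.1 * (2 : ℝ) ^ q.2) : ℝ) <
        c * Real.log ((2 : ℝ) ^ q.2)} := ⟨_, rfl⟩
  have hEm : ∀ i l θ, θ ∈ E (i, l) ↔ (θ ∈ Set.Ioc (0 : ℝ) 1 ∧
      3 ≤ D g θ (tt i) ∧ X0 ≤ (2 : ℝ) ^ i ∧ ((i : ℝ) + 1) ^ 2 * r ^ l ≤ 1 ∧
      (M S g s w θ ((2 : ℝ) ^ i) ((2 : ℝ) ^ i * (2 : ℝ) ^ l) : ℝ) <
        c * Real.log ((2 : ℝ) ^ l)) := by
    intro i l θ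
    rw [hE]
    rfl
  have hIfin : volume (Set.Ioc (0 : ℝ) 1) ≠ ⊤ := by rw [Real.volume_Ioc]; simp
  have hbound : ∀ q : ℕ × ℕ, volume (E q) ≤
      ENNReal.ofReal (C * (1 / ((q.1 : ℝ) + 1) ^ 2 * r ^ q.2)) := by
    rintro ⟨i, l⟩
    simp only
    by_cases hcond : X0 ≤ (2 : ℝ) ^ i ∧ ((i : ℝ) + 1) ^ 2 * r ^ l ≤ 1
    · obtain ⟨hi, hil⟩ := hcond
      have hsub1 : E (i, l) ⊆ Set.Ioc (0 : ℝ) 1 := fun θ hθ => ((hEm i l θ).1 hθ).1
      have hfin : volume (E (i, l)) ≠ ⊤ := ne_top_of_le_ne_top hIfin (measure_mono hsub1)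
      have hsub : E (i, l) ⊆ ⋃ A ∈ Finset.Ico 3 (g ^ tt i), {θ : ℝ | θ ∈ Set.Ioc (0 : ℝ) 1 ∧
          D g θ (tt i) = A ∧ (M S g s w θ ((2 : ℝ) ^ i) ((2 : ℝ) ^ i * (2 : ℝ) ^ l) : ℝ) <
            c * Real.log ((2 : ℝ) ^ l)} := by
        intro θ hθ
        obtain ⟨h1, h2, _, _, h3⟩ := (hEm i l θ).1 hθ
        simp only [Set.mem_iUnion]
        refine ⟨D g θ (tt i), ?_, h1, rfl, h3⟩
        rw [Finset.mem_Ico]
        refine ⟨h2, ?_⟩
        unfold D
        have h4 : ⌈θ * (g : ℝ) ^ tt i⌉₊ ≤ g ^ tt i := by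
          rw [Nat.ceil_le]
          push_cast
          have : (0 : ℝ) < (g : ℝ) ^ tt i := by positivity
          nlinarith [h1.2]
        have h5 : 0 < g ^ tt i := by positivity
        omega
      have hr2 : volume.real (E (i, l)) ≤ C * (1 / ((i : ℝ) + 1) ^ 2 * r ^ l) := by
        have hfin2 : volume (⋃ A ∈ Finset.Ico 3 (g ^ tt i), {θ : ℝ | θ ∈ Set.Ioc (0 : ℝ) 1 ∧
            D g θ (tt i) = A ∧ (M S g s w θ ((2 : ℝ) ^ i) ((2 : ℝ) ^ i * (2 : ℝ) ^ l) : ℝ) <
              c * Real.log ((2 : ℝ) ^ l)}) ≠ ⊤ := by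
          refine ne_top_of_le_ne_top hIfin (measure_mono ?_)
          intro θ hθ
          simp only [Set.mem_iUnion] at hθ
          obtain ⟨A, _, h1⟩ := hθ
          exact h1.1
        refine (measureReal_mono hsub hfin2).trans ?_
        refine (measureReal_biUnion_finset_le _ _).trans ?_
        have hone : ∀ A ∈ Finset.Ico 3 (g ^ tt i), volume.real {θ : ℝ | θ ∈ Set.Ioc (0 : ℝ) 1 ∧
            D g θ (tt i) = A ∧ (M S g s w θ ((2 : ℝ) ^ i) ((2 : ℝ) ^ i * (2 : ℝ) ^ l) : ℝ) <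
              c * Real.log ((2 : ℝ) ^ l)} ≤ C * ((2 : ℝ) ^ l) ^ (-c) * ((g : ℝ) ^ tt i)⁻¹ := by
          intro A hA
          rw [Finset.mem_Ico] at hA
          refine hdev _ hi _ (one_le_pow₀ (by norm_num)) _ A ?_ hA.1 hA.2
          rw [htt]
          exact Nat.floor_le (by positivity)
        refine (Finset.sum_le_sum hone).trans ?_
        rw [Finset.sum_const, nsmul_eq_mul, Nat.card_Ico]
        have h6 : ((g ^ tt i - 3 : ℕ) : ℝ) ≤ (g : ℝ) ^ tt i := by
          have : g ^ tt i - 3 ≤ g ^ tt i := Nat.sub_le _ _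
          exact_mod_cast this
        have h7 : (0 : ℝ) < (g : ℝ) ^ tt i := by positivity
        have h8 : ((2 : ℝ) ^ l) ^ (-c) = r ^ l * r ^ l := by
          rw [hr, ← Real.rpow_natCast, ← Real.rpow_natCast, ← Real.rpow_mul (by norm_num),
            ← Real.rpow_mul (by norm_num), ← Real.rpow_add (by norm_num)]
          ring_nf
        have h9 : 0 < r ^ l := by positivity
        calc ((g ^ tt i - 3 : ℕ) : ℝ) * (C * ((2 : ℝ) ^ l) ^ (-c) * ((g : ℝ) ^ tt i)⁻¹) ≤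
              (g : ℝ) ^ tt i * (C * ((2 : ℝ) ^ l) ^ (-c) * ((g : ℝ) ^ tt i)⁻¹) :=
                mul_le_mul_of_nonneg_right h6 (by positivity)
          _ = C * (r ^ l * r ^ l) := by rw [h8]; field_simp
          _ ≤ C * (1 / ((i : ℝ) + 1) ^ 2 * r ^ l) := by
              refine mul_le_mul_of_nonneg_left (mul_le_mul_of_nonneg_right ?_ h9.le) hC.le
              rw [le_div_iff₀ (by positivity)]
              linarith
      rw [← ofReal_measureReal hfin]
      exact ENNReal.ofReal_le_ofReal hr2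
    · have : E (i, l) = ∅ := by
        ext θ
        simp only [Set.mem_empty_iff_false, iff_false]
        intro hθ
        obtain ⟨_, _, h1, h2, _⟩ := (hEm i l θ).1 hθ
        exact hcond ⟨h1, h2⟩
      rw [this]
      simp
  have hsum1 : Summable (fun i : ℕ => 1 / ((i : ℝ) + 1) ^ 2) := by
    have h1 := (summable_nat_add_iff 1).2 (Real.summable_one_div_nat_pow.2 (by norm_num : 1 < 2))
    simpa using h1
  have hsum2 : Summable (fun l : ℕ => r ^ l) := summable_geometric_of_lt_one hr0.le hr1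
  have hsum : Summable (fun q : ℕ × ℕ => C * (1 / ((q.1 : ℝ) + 1) ^ 2 * r ^ q.2)) :=
    (hsum1.mul_of_nonneg hsum2 (fun i => by positivity) (fun l => by positivity)).mul_left C
  have htop : ∑' q, volume (E q) ≠ ⊤ := by
    refine ne_top_of_le_ne_top ?_ (ENNReal.tsum_le_tsum hbound)
    rw [← ENNReal.ofReal_tsum_of_nonneg (fun q => by positivity) hsum]
    exact ENNReal.ofReal_ne_top
  filter_upwards [ae_finite_setOfPred_mem htop] with θ hθ hm
  obtain ⟨I, hI⟩ := (hθ.image Prod.fst).bddAbove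
  have hI' : ∀ i > I, ∀ l, θ ∉ E (i, l) := by
    intro i hi l hil
    have : i ≤ I := hI ⟨(i, l), hil, rfl⟩
    omega
  obtain ⟨I2, hI2⟩ : ∃ I2 : ℕ, I2 = ⌈(3 / θ + 1) / κ⌉₊ + 1 := ⟨_, rfl⟩
  have hD3 : ∀ i ≥ I2, 3 ≤ D g θ (tt i) := by
    intro i hi
    have hi1 : (3 / θ + 1) / κ < i := by
      have h1 := Nat.le_ceil ((3 / θ + 1) / κ)
      have h2 : ((⌈(3 / θ + 1) / κ⌉₊ + 1 : ℕ) : ℝ) ≤ i := by
        rw [← hI2]
        exact_mod_cast hi
      push_cast at h2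
      linarith
    rw [div_lt_iff₀ hκ] at hi1
    have h2 : (i : ℝ) ≤ 2 ^ i := by exact_mod_cast (Nat.lt_two_pow_self (n := i)).le
    have h3 : κ * 2 ^ i < tt i + 1 := by rw [htt]; exact Nat.lt_floor_add_one _
    have h4 : 3 / θ < tt i := by nlinarith
    have h5 : ((tt i : ℕ) : ℝ) ≤ (g : ℝ) ^ tt i := by
      have : tt i ≤ g ^ tt i := (Nat.lt_pow_self (by omega)).le
      exact_mod_cast this
    have h6 : 3 < θ * (g : ℝ) ^ tt i := by
      rw [div_lt_iff₀ hm.1] at h4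
      nlinarith [hm.1]
    have h7 : 3 < ⌈θ * (g : ℝ) ^ tt i⌉₊ := by
      rw [Nat.lt_ceil]
      exact_mod_cast h6
    unfold D
    omega
  have hlog := Real.tendsto_log_atTop
  have hloglog := Real.tendsto_log_atTop.comp Real.tendsto_log_atTop
  have hlogb : ∀ᶠ x : ℝ in atTop, ((I + I2 + 1 : ℕ) : ℝ) ≤ Real.log x := hlog.eventually_ge_atTop _
  filter_upwards [hlog.eventually_ge_atTop 9, hloglog.eventually_ge_atTop c, hlogb,
    eventually_ge_atTop X0, eventually_ge_atTop (1 : ℝ)] with x hx9 hxll hxI hxX hx1 L hL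
  have hx0 : (0 : ℝ) < x := by linarith
  simp only [Function.comp_apply] at hxll
  obtain ⟨u, hu⟩ : ∃ u, u = Real.log (Real.log x) := ⟨_, rfl⟩
  rw [← hu] at hxll
  have hlx0 : 0 < Real.log x := by linarith
  have hL0 : 0 < L := lt_of_lt_of_le (Real.rpow_pos_of_pos hlx0 _) hL
  have hlL : 12 / c * u ≤ Real.log L := by
    have h1 := Real.log_le_log (Real.rpow_pos_of_pos hlx0 _) hL
    rw [Real.log_rpow hlx0, ← hu] at h1
    exact h1
  have hlL12 : 12 ≤ Real.log L := by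
    refine le_trans ?_ hlL
    rw [div_mul_eq_mul_div, le_div_iff₀ hc]
    nlinarith
  have hlL3 : 3 * u ≤ c / 4 * Real.log L := by
    have h1 : c / 4 * (12 / c * u) ≤ c / 4 * Real.log L := mul_le_mul_of_nonneg_left hlL (by positivity)
    have h2 : c / 4 * (12 / c * u) = 3 * u := by
      field_simp
      ring
    linarith
  have hl2 : 0 < Real.log 2 := Real.log_pos (by norm_num)
  have hl21 : Real.log 2 < 1 := by linarith [Real.log_two_lt_d9]
  have hl22 : 1 / 2 < Real.log 2 := by linarith [Real.log_two_gt_d9]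
  -- the index `i`
  obtain ⟨i, hi⟩ : ∃ i, i = ⌈Real.log x / Real.log 2⌉₊ := ⟨_, rfl⟩
  have hi1 : Real.log x / Real.log 2 ≤ i := by rw [hi]; exact Nat.le_ceil _
  have hi2 : (i : ℝ) < Real.log x / Real.log 2 + 1 := by
    rw [hi]
    exact Nat.ceil_lt_add_one (by positivity)
  rw [div_le_iff₀ hl2] at hi1
  have hi3 : (i : ℝ) * Real.log 2 < Real.log x + Real.log 2 := by
    have h1 : (i : ℝ) - 1 < Real.log x / Real.log 2 := by linarith
    rw [lt_div_iff₀ hl2] at h1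
    linarith
  have h2i : (2 : ℝ) ^ i = Real.exp (i * Real.log 2) := by
    rw [Real.exp_nat_mul, Real.exp_log (by norm_num)]
  have hx2i : x ≤ 2 ^ i := by
    rw [h2i, ← Real.log_le_iff_le_exp hx0]
    exact hi1
  have h2ix : (2 : ℝ) ^ i ≤ 2 * x := by
    rw [h2i]
    have h1 : (2 : ℝ) * x = Real.exp (Real.log 2 + Real.log x) := by
      rw [Real.exp_add, Real.exp_log (by norm_num), Real.exp_log hx0]
    rw [h1]
    refine Real.exp_le_exp.2 ?_
    linarith
  have hiI : I + I2 + 1 ≤ i := by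
    have h1 : ((I + I2 + 1 : ℕ) : ℝ) ≤ i := by
      refine hxI.trans ?_
      have : (0 : ℝ) ≤ i := Nat.cast_nonneg i
      nlinarith
    exact_mod_cast h1
  have hi4 : (i : ℝ) < 2 * Real.log x + 1 := by
    have h1 : Real.log x / Real.log 2 ≤ 2 * Real.log x := by
      rw [div_le_iff₀ hl2]
      nlinarith
    linarith
  -- the index `l`
  obtain ⟨l', hl'⟩ : ∃ l', l' = ⌊Real.log L / Real.log 2⌋₊ := ⟨_, rfl⟩
  have hl1' : (l' : ℝ) ≤ Real.log L / Real.log 2 := by rw [hl']; exact Nat.floor_le (by positivity)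
  have hl2' : Real.log L / Real.log 2 < l' + 1 := by rw [hl']; exact Nat.lt_floor_add_one _
  rw [le_div_iff₀ hl2] at hl1'
  rw [div_lt_iff₀ hl2] at hl2'
  obtain ⟨l, hl⟩ : ∃ l, l' = l + 1 := by
    refine ⟨l' - 1, ?_⟩
    have : l' ≠ 0 := by
      intro h0
      rw [h0] at hl2'
      push_cast at hl2'
      linarith
    omega
  rw [hl] at hl1' hl2'
  push_cast at hl1' hl2'
  have hlow : Real.log L / 2 ≤ l * Real.log 2 := by linarith
  have h2l : (2 : ℝ) * 2 ^ l ≤ L := by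
    have h1 : (2 : ℝ) * 2 ^ l = Real.exp ((l + 1) * Real.log 2) := by
      have h2 : (2 : ℝ) * 2 ^ l = 2 ^ (l + 1) := by ring
      rw [h2]
      have h3 := Real.exp_nat_mul (Real.log 2) (l + 1)
      rw [Real.exp_log (by norm_num)] at h3
      rw [← h3]
      push_cast
      rfl
    rw [h1, ← Real.le_log_iff_exp_le hL0]
    exact hl1'
  have hrl : ((i : ℝ) + 1) ^ 2 * r ^ l ≤ 1 := by
    have h1 : r ^ l = Real.exp (-(c / 2 * (l * Real.log 2))) := by
      rw [hr, ← Real.rpow_natCast, ← Real.rpow_mul (by norm_num), Real.rpow_def_of_pos (by norm_num)]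
      ring_nf
    have h2 : r ^ l ≤ Real.exp (-(3 * u)) := by
      rw [h1]
      refine Real.exp_le_exp.2 ?_
      have h3 : c / 2 * (Real.log L / 2) ≤ c / 2 * (l * Real.log 2) :=
        mul_le_mul_of_nonneg_left hlow (by positivity)
      linarith
    have h3 : Real.exp (-(3 * u)) = ((Real.log x) ^ 3)⁻¹ := by
      rw [Real.exp_neg, hu]
      congr 1
      have h4 := Real.exp_nat_mul (Real.log (Real.log x)) 3
      rw [Real.exp_log hlx0] at h4
      rw [← h4]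
      push_cast
      rfl
    have h5 : ((i : ℝ) + 1) ^ 2 ≤ (Real.log x) ^ 3 := by
      have h6 : (i : ℝ) + 1 ≤ 3 * Real.log x := by linarith
      have h7 : ((i : ℝ) + 1) ^ 2 ≤ (3 * Real.log x) ^ 2 :=
        pow_le_pow_left₀ (by positivity) h6 2
      nlinarith [sq_nonneg (Real.log x)]
    calc ((i : ℝ) + 1) ^ 2 * r ^ l ≤ (Real.log x) ^ 3 * ((Real.log x) ^ 3)⁻¹ := by
          rw [← h3]
          gcongr
      _ = 1 := mul_inv_cancel₀ (by positivity)
  -- conclusion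
  have hnot := hI' i (by omega) l
  have hge : c * Real.log ((2 : ℝ) ^ l) ≤
      M S g s w θ ((2 : ℝ) ^ i) ((2 : ℝ) ^ i * (2 : ℝ) ^ l) := by
    by_contra hlt
    push Not at hlt
    exact hnot ((hEm i l θ).2 ⟨hm, hD3 i (by omega), hxX.trans hx2i, hrl, hlt⟩)
  have hmono : M S g s w θ ((2 : ℝ) ^ i) ((2 : ℝ) ^ i * (2 : ℝ) ^ l) ≤ M S g s w θ x (x * L) := by
    refine M_mono θ hx2i ?_
    calc (2 : ℝ) ^ i * (2 : ℝ) ^ l ≤ (2 * x) * (2 : ℝ) ^ l := by gcongr
      _ = x * (2 * 2 ^ l) := by ring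
      _ ≤ x * L := mul_le_mul_of_nonneg_left h2l hx0.le
  have hmono' : (M S g s w θ ((2 : ℝ) ^ i) ((2 : ℝ) ^ i * (2 : ℝ) ^ l) : ℝ) ≤
      M S g s w θ x (x * L) := by exact_mod_cast hmono
  refine le_trans ?_ (hge.trans hmono')
  rw [Real.log_pow]
  calc c / 2 * Real.log L = c * (Real.log L / 2) := by ring
    _ ≤ c * (l * Real.log 2) := mul_le_mul_of_nonneg_left hlow hc.le


section io

variable {S : Set ℕ} {g : ℕ} {s : ℝ} {w : ℕ → ℕ}

lemma D_compat (hg : 2 ≤ g) (θ : ℝ) {m n : ℕ} (hmn : m ≤ n) : D g θ n / g ^ (n - m) = D g θ m :=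
  (Pool.Agent.Q160.TB.top_ceil hg).compat m n θ hmn

lemma D_congr (hg : 2 ≤ g) {θ θ' : ℝ} {m n : ℕ} (hmn : m ≤ n) (h : D g θ n = D g θ' n) :
    D g θ m = D g θ' m := by
  rw [← D_compat hg θ hmn, ← D_compat hg θ' hmn, h]

/-- the count depends on the first digits only -/
lemma M_congr (hg : 2 ≤ g) (hs0 : 0 ≤ s) (hs1 : s ≤ 1) {θ θ' a b : ℝ} {n : ℕ} (hb : b ≤ n)
    (h : D g θ n = D g θ' n) : M S g s w θ a b = M S g s w θ' a b := by
  unfold M
  congr 1
  ext p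
  have hN : (p : ℝ) ≤ b → N g s w θ p = N g s w θ' p := by
    intro hp
    unfold N
    rw [D_congr hg _ h]
    refine Nat.floor_le_of_le ?_
    have : (0 : ℝ) ≤ p := Nat.cast_nonneg p
    nlinarith
  constructor
  · rintro ⟨h1, h2, h3, h4, h5⟩
    rw [hN h2] at h5
    exact ⟨h1, h2, h3, h4, h5⟩
  · rintro ⟨h1, h2, h3, h4, h5⟩
    rw [← hN h2] at h5
    exact ⟨h1, h2, h3, h4, h5⟩

lemma vol_D (hg : 2 ≤ g) {t A : ℕ} (hA : A < g ^ t) :
    volume.real {θ : ℝ | θ ∈ Set.Ioc (0 : ℝ) 1 ∧ D g θ t = A} = ((g : ℝ) ^ t)⁻¹ := by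
  have h := (Pool.Agent.Q160.TB.top_ceil hg).unif t A hA
  have h2 : MeasurableSet {θ : ℝ | ⌈θ * (g : ℝ) ^ t⌉₊ - 1 = A} :=
    (Pool.Agent.Q160.TB.top_ceil hg).meas t (measurableSet_singleton A)
  rw [measureReal_def, Measure.restrict_apply h2, ← measureReal_def] at h
  rw [← h]
  congr 1
  ext θ
  constructor
  · rintro ⟨h1, h2⟩
    exact ⟨h2, h1⟩
  · rintro ⟨h1, h2⟩
    exact ⟨h2, h1⟩

/-- sets that are determined by the first digits -/
lemma meas_det (hg : 2 ≤ g) {E : Set ℝ} {t : ℕ} (hE : E ⊆ Set.Ioc 0 1)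
    (h : ∀ θ ∈ E, ∀ θ' ∈ Set.Ioc (0 : ℝ) 1, D g θ t = D g θ' t → θ' ∈ E) : MeasurableSet E := by
  have h1 : E = Set.Ioc 0 1 ∩ (fun θ => D g θ t) ⁻¹' ((fun θ => D g θ t) '' E) := by
    ext θ
    constructor
    · intro hθ
      exact ⟨hE hθ, θ, hθ, rfl⟩
    · rintro ⟨h2, θ', h3, h4⟩
      exact h θ' h3 θ h2 h4
  rw [h1]
  have h2 : Measurable (fun θ => D g θ t) := (Pool.Agent.Q160.TB.top_ceil hg).meas t
  exact measurableSet_Ioc.inter (h2 MeasurableSet.of_discrete)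

/-- infinitely many windows without exponents, at almost every point -/
theorem io (hg : 2 ≤ g) (hs0 : 0 ≤ s) (hs1 : s ≤ 1) {κ c1 γ β X0 : ℝ} (hκ : 0 < κ) (hc1 : 0 < c1)
    (hγ : 0 < γ) (hβ : 0 < β) (hβγ : β * γ ≤ 1 / 4)
    (hlow : ∀ x ≥ X0, ∀ L : ℝ, 1 ≤ L → ∀ t A : ℕ, t ≤ κ * x → 1 ≤ A → A < g ^ t →
      c1 * L ^ (-γ) * ((g : ℝ) ^ t)⁻¹ ≤
        volume.real {θ : ℝ | θ ∈ Set.Ioc (0 : ℝ) 1 ∧ D g θ t = A ∧ M S g s w θ x (x * L) = 0}) :
    ∀ᵐ θ : ℝ, θ ∈ Set.Ioc (0 : ℝ) 1 → ∃ᶠ x : ℝ in atTop, M S g s w θ x (x * (Real.log x) ^ β) = 0 := by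
  classical
  have hgr : (2 : ℝ) ≤ g := by exact_mod_cast hg
  have hg0 : (0 : ℝ) < g := by linarith
  obtain ⟨X, hX⟩ : ∃ X : ℕ → ℝ, X = fun i : ℕ => Real.exp ((i : ℝ) ^ 2) := ⟨_, rfl⟩
  have hX0 : ∀ i, 0 < X i := fun i => by rw [hX]; exact Real.exp_pos _
  obtain ⟨L, hL⟩ : ∃ L : ℕ → ℝ, L = fun i : ℕ => ((i : ℝ) ^ 2) ^ β := ⟨_, rfl⟩
  have hLlog : ∀ i, L i = (Real.log (X i)) ^ β := fun i => by rw [hL, hX]; simp only [Real.log_exp]
  obtain ⟨tt, htt⟩ : ∃ tt : ℕ → ℕ, tt = fun i => ⌊κ * X i⌋₊ := ⟨_, rfl⟩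
  have hXmono : ∀ i j : ℕ, i ≤ j → X i ≤ X j := by
    intro i j hij
    rw [hX]
    refine Real.exp_le_exp.2 ?_
    have : (i : ℝ) ≤ j := by exact_mod_cast hij
    exact pow_le_pow_left₀ (Nat.cast_nonneg i) this 2
  have httmono : ∀ i j : ℕ, i ≤ j → tt i ≤ tt j := by
    intro i j hij
    rw [htt]
    exact Nat.floor_le_floor (mul_le_mul_of_nonneg_left (hXmono i j hij) hκ.le)
  have hXtop : Tendsto X atTop atTop := by
    rw [hX]
    refine Real.tendsto_exp_atTop.comp ?_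
    exact (tendsto_pow_atTop (by norm_num : 2 ≠ 0)).comp tendsto_natCast_atTop_atTop
  -- the windows do not overlap
  have hsep : ∀ᶠ i : ℕ in atTop, X i * L i ≤ tt (i + 1) := by
    have h1 : Tendsto (fun i : ℕ => (i : ℝ) ^ (2 * β) * Real.exp (-((i : ℝ)))) atTop (𝓝 0) := by
      have h2 := tendsto_rpow_mul_exp_neg_mul_atTop_nhds_zero (2 * β) 1 one_pos
      have h3 := h2.comp tendsto_natCast_atTop_atTop (α := ℕ)
      refine h3.congr fun i => ?_
      simp
    filter_upwards [h1.eventually (eventually_le_nhds (show (0 : ℝ) < κ / 2 by positivity)),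
      hXtop.eventually_ge_atTop (2 / κ), eventually_ge_atTop 1] with i h2 h3 hi
    have h4 : κ * X (i + 1) < tt (i + 1) + 1 := by rw [htt]; exact Nat.lt_floor_add_one _
    have h5 : X i * Real.exp i ≤ X (i + 1) := by
      rw [hX]
      simp only
      rw [← Real.exp_add]
      refine Real.exp_le_exp.2 ?_
      push_cast
      nlinarith [(Nat.cast_nonneg i : (0 : ℝ) ≤ i)]
    have h6 : L i ≤ κ / 2 * Real.exp i := by
      have e1 : L i = (i : ℝ) ^ (2 * β) := by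
        rw [hL]
        simp only
        rw [← Real.rpow_natCast, ← Real.rpow_mul (Nat.cast_nonneg i)]
        push_cast
        rfl
      rw [e1]
      rw [Real.exp_neg, ← div_eq_mul_inv, div_le_iff₀ (Real.exp_pos _)] at h2
      exact h2
    have h7 : 1 ≤ κ / 2 * X (i + 1) := by
      have h8 := h3.trans (hXmono i (i + 1) (by omega))
      rw [div_le_iff₀ hκ] at h8
      linarith
    have h8 : X i * L i ≤ κ / 2 * X (i + 1) := by
      calc X i * L i ≤ X i * (κ / 2 * Real.exp i) := mul_le_mul_of_nonneg_left h6 (hX0 i).le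
        _ = κ / 2 * (X i * Real.exp i) := by ring
        _ ≤ _ := mul_le_mul_of_nonneg_left h5 (by positivity)
    linarith
  obtain ⟨I0, hI0⟩ := eventually_atTop.1 (hsep.and ((hXtop.eventually_ge_atTop X0).and
    (eventually_ge_atTop 1)))
  -- the bad sets
  obtain ⟨F, hF⟩ : ∃ F : ℕ → ℕ → Set ℝ, F = fun I n => {θ : ℝ | θ ∈ Set.Ioc (0 : ℝ) 1 ∧
      1 ≤ D g θ (tt I) ∧ ∀ i, I ≤ i → i < n → M S g s w θ (X i) (X i * L i) ≠ 0} := ⟨_, rfl⟩
  have hIfin : volume (Set.Ioc (0 : ℝ) 1) ≠ ⊤ := by rw [Real.volume_Ioc]; simp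
  have hFsub : ∀ I n, F I n ⊆ Set.Ioc (0 : ℝ) 1 := by
    intro I n θ hθ
    rw [hF] at hθ
    exact hθ.1
  have hFdet : ∀ I n, I0 ≤ I → I ≤ n → ∀ θ ∈ F I n, ∀ θ' ∈ Set.Ioc (0 : ℝ) 1,
      D g θ (tt n) = D g θ' (tt n) → θ' ∈ F I n := by
    intro I n hI hn θ hθ θ' hθ' hD
    rw [hF] at hθ ⊢
    obtain ⟨h1, h2, h3⟩ := hθ
    refine ⟨hθ', ?_, fun i hi1 hi2 => ?_⟩
    · rw [← D_congr hg (httmono I n hn) hD]
      exact h2
    · have h4 := (hI0 i (by omega)).1
      have h5 := httmono (i + 1) n (by omega)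
      have h6 : X i * L i ≤ tt n := by
        have : ((tt (i + 1) : ℕ) : ℝ) ≤ tt n := by exact_mod_cast h5
        linarith
      rw [← M_congr hg hs0 hs1 h6 hD]
      exact h3 i hi1 hi2
  have hstep : ∀ I n, I0 ≤ I → I ≤ n →
      volume.real (F I (n + 1)) ≤ (1 - c1 * (L n) ^ (-γ)) * volume.real (F I n) := by
    intro I n hI hn
    obtain ⟨hsepn, hXn, hn1⟩ := hI0 n (by omega)
    obtain ⟨t, ht⟩ : ∃ t, t = tt n := ⟨_, rfl⟩
    obtain ⟨B, hB⟩ : ∃ B : Finset ℕ, B = (Finset.range (g ^ t)).filter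
      (fun A => ∃ θ ∈ F I n, D g θ t = A) := ⟨_, rfl⟩
    have hDlt : ∀ θ ∈ Set.Ioc (0 : ℝ) 1, D g θ t < g ^ t := by
      intro θ hθ
      unfold D
      have h4 : ⌈θ * (g : ℝ) ^ t⌉₊ ≤ g ^ t := by
        rw [Nat.ceil_le]
        push_cast
        have : (0 : ℝ) < (g : ℝ) ^ t := by positivity
        nlinarith [hθ.2]
      have h5 : 0 < g ^ t := by positivity
      omega
    have hB1 : ∀ A ∈ B, 1 ≤ A ∧ A < g ^ t := by
      intro A hA
      rw [hB, Finset.mem_filter, Finset.mem_range] at hA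
      obtain ⟨h1, θ, h2, h3⟩ := hA
      refine ⟨?_, h1⟩
      rw [hF] at h2
      have h4 := h2.2.1
      rw [← D_compat hg θ (httmono I n hn), ← ht, h3] at h4
      by_contra h5
      have : A = 0 := by omega
      rw [this, Nat.zero_div] at h4
      omega
    have hFB : F I n = ⋃ A ∈ B, {θ : ℝ | θ ∈ Set.Ioc (0 : ℝ) 1 ∧ D g θ t = A} := by
      ext θ
      simp only [Set.mem_iUnion, Set.mem_setOf_eq]
      constructor
      · intro hθ
        refine ⟨D g θ t, ?_, hFsub I n hθ, rfl⟩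
        rw [hB, Finset.mem_filter, Finset.mem_range]
        exact ⟨hDlt θ (hFsub I n hθ), θ, hθ, rfl⟩
      · rintro ⟨A, hA, h1, h2⟩
        rw [hB, Finset.mem_filter] at hA
        obtain ⟨_, θ', h3, h4⟩ := hA
        refine hFdet I n hI hn θ' h3 θ h1 ?_
        rw [← ht, h4, h2]
    obtain ⟨Z, hZ⟩ : ∃ Z : Set ℝ, Z = ⋃ A ∈ B, {θ : ℝ | θ ∈ Set.Ioc (0 : ℝ) 1 ∧ D g θ t = A ∧
        M S g s w θ (X n) (X n * L n) = 0} := ⟨_, rfl⟩
    have hdisj : ∀ P : ℝ → Prop, Set.PairwiseDisjoint (B : Set ℕ)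
        (fun A => {θ : ℝ | θ ∈ Set.Ioc (0 : ℝ) 1 ∧ D g θ t = A ∧ P θ}) := by
      intro P A _ A' _ hAA
      rw [Function.onFun, Set.disjoint_left]
      rintro θ ⟨_, h1, _⟩ ⟨_, h2, _⟩
      exact hAA (h1.symm.trans h2)
    have hvolF : volume.real (F I n) = (B.card : ℝ) * ((g : ℝ) ^ t)⁻¹ := by
      rw [hFB, measureReal_biUnion_finset (h := fun A _ =>
        ne_top_of_le_ne_top hIfin (measure_mono fun θ hθ => hθ.1))]
      · rw [Finset.sum_congr rfl fun A hA => vol_D hg (hB1 A hA).2, Finset.sum_const, nsmul_eq_mul]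
      · intro A hA A' hA' hAA
        rw [Function.onFun, Set.disjoint_left]
        rintro θ ⟨_, h1⟩ ⟨_, h2⟩
        exact hAA (h1.symm.trans h2)
      · intro A _
        refine meas_det hg (t := t) (fun θ hθ => hθ.1) ?_
        rintro θ ⟨_, h1⟩ θ' h2 h3
        exact ⟨h2, by rw [← h3, h1]⟩
    have hmeasZ : ∀ A, MeasurableSet {θ : ℝ | θ ∈ Set.Ioc (0 : ℝ) 1 ∧ D g θ t = A ∧
        M S g s w θ (X n) (X n * L n) = 0} := by
      intro A
      refine meas_det hg (t := tt (n + 1)) (fun θ hθ => hθ.1) ?_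
      rintro θ ⟨_, h1, h2⟩ θ' h3 h4
      refine ⟨h3, ?_, ?_⟩
      · rw [← D_congr hg (by rw [ht]; exact httmono n (n + 1) (by omega)) h4]
        exact h1
      · rw [← M_congr hg hs0 hs1 hsepn h4]
        exact h2
    have hvolZ : volume.real Z = ∑ A ∈ B, volume.real {θ : ℝ | θ ∈ Set.Ioc (0 : ℝ) 1 ∧ D g θ t = A ∧
        M S g s w θ (X n) (X n * L n) = 0} := by
      rw [hZ, measureReal_biUnion_finset (h := fun A _ =>
        ne_top_of_le_ne_top hIfin (measure_mono fun θ hθ => hθ.1))]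
      · exact hdisj _
      · intro A _
        exact hmeasZ A
    have hL1 : 1 ≤ L n := by
      rw [hL]
      refine Real.one_le_rpow ?_ hβ.le
      have : (1 : ℝ) ≤ n := by exact_mod_cast hn1
      nlinarith
    have hZge : c1 * (L n) ^ (-γ) * volume.real (F I n) ≤ volume.real Z := by
      rw [hvolZ, hvolF]
      calc c1 * (L n) ^ (-γ) * ((B.card : ℝ) * ((g : ℝ) ^ t)⁻¹) =
            ∑ A ∈ B, c1 * (L n) ^ (-γ) * ((g : ℝ) ^ t)⁻¹ := by
            rw [Finset.sum_const, nsmul_eq_mul]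
            ring
        _ ≤ _ := by
            refine Finset.sum_le_sum fun A hA => ?_
            obtain ⟨h1, h2⟩ := hB1 A hA
            refine hlow (X n) hXn (L n) hL1 t A ?_ h1 h2
            rw [ht, htt]
            exact Nat.floor_le (mul_nonneg hκ.le (hX0 n).le)
    have hunion : F I n = F I (n + 1) ∪ Z := by
      ext θ
      constructor
      · intro hθ
        by_cases h0 : M S g s w θ (X n) (X n * L n) = 0
        · right
          rw [hZ]
          rw [hFB] at hθ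
          simp only [Set.mem_iUnion, Set.mem_setOf_eq] at hθ ⊢
          obtain ⟨A, hA, h1, h2⟩ := hθ
          exact ⟨A, hA, h1, h2, h0⟩
        · left
          rw [hF] at hθ ⊢
          refine ⟨hθ.1, hθ.2.1, fun i hi1 hi2 => ?_⟩
          rcases Nat.lt_or_ge i n with h1 | h1
          · exact hθ.2.2 i hi1 h1
          · have : i = n := by omega
            rw [this]
            exact h0
      · rintro (hθ | hθ)
        · rw [hF] at hθ ⊢
          exact ⟨hθ.1, hθ.2.1, fun i hi1 hi2 => hθ.2.2 i hi1 (by omega)⟩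
        · rw [hZ] at hθ
          rw [hFB]
          simp only [Set.mem_iUnion, Set.mem_setOf_eq] at hθ ⊢
          obtain ⟨A, hA, h1, h2, _⟩ := hθ
          exact ⟨A, hA, h1, h2⟩
    have hdis : Disjoint (F I (n + 1)) Z := by
      rw [Set.disjoint_left]
      intro θ h1 h2
      rw [hF] at h1
      rw [hZ] at h2
      simp only [Set.mem_iUnion, Set.mem_setOf_eq] at h2
      obtain ⟨A, _, _, _, h3⟩ := h2
      exact h1.2.2 n hn (by omega) h3
    have hZm : MeasurableSet Z := by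
      rw [hZ]
      exact Finset.measurableSet_biUnion _ fun A _ => hmeasZ A
    have hZsub : Z ⊆ Set.Ioc (0 : ℝ) 1 := by
      intro θ hθ
      rw [hZ] at hθ
      simp only [Set.mem_iUnion, Set.mem_setOf_eq] at hθ
      obtain ⟨A, _, h1, _⟩ := hθ
      exact h1
    have hadd : volume.real (F I n) = volume.real (F I (n + 1)) + volume.real Z := by
      rw [hunion]
      exact measureReal_union hdis hZm (ne_top_of_le_ne_top hIfin (measure_mono (hFsub I (n + 1))))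
        (ne_top_of_le_ne_top hIfin (measure_mono hZsub))
    linarith
  -- the limit
  have hexp : ∀ I N, I0 ≤ I → ∀ n, I ≤ n → n ≤ N ^ 2 →
      volume.real (F I n) ≤ Real.exp (-(c1 * ((n : ℝ) - I) / N)) := by
    intro I N hI n hn
    induction n, hn using Nat.le_induction with
    | base =>
      intro _
      rw [sub_self, mul_zero, zero_div, neg_zero, Real.exp_zero]
      have h1 := measureReal_mono (μ := volume) (hFsub I I) hIfin
      refine h1.trans (le_of_eq ?_)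
      rw [Real.volume_real_Ioc]
      norm_num
    | succ n hn ih =>
      intro hnN
      have ih1 := ih (by omega)
      obtain ⟨_, _, hn1⟩ := hI0 n (by omega)
      have hn1' : (1 : ℝ) ≤ n := by exact_mod_cast hn1
      have hN0 : (0 : ℝ) < N := by
        have : N ≠ 0 := by
          rintro rfl
          omega
        exact_mod_cast Nat.pos_of_ne_zero this
      have hLn : 1 / (N : ℝ) ≤ (L n) ^ (-γ) := by
        have e1 : (L n) ^ (-γ) = (n : ℝ) ^ (-(2 * (β * γ))) := by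
          rw [hL]
          simp only
          rw [← Real.rpow_natCast, ← Real.rpow_mul (Nat.cast_nonneg n), ← Real.rpow_mul (Nat.cast_nonneg n)]
          congr 1
          push_cast
          ring
        have e2 : 1 / (N : ℝ) = ((N : ℝ) ^ 2) ^ (-(1 / 2) : ℝ) := by
          rw [← Real.rpow_natCast, ← Real.rpow_mul hN0.le]
          norm_num
          rw [Real.rpow_neg_one]
        rw [e1, e2]
        have h1 : (n : ℝ) ≤ (N : ℝ) ^ 2 := by exact_mod_cast (by omega : n ≤ N ^ 2)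
        calc ((N : ℝ) ^ 2) ^ (-(1 / 2) : ℝ) ≤ (n : ℝ) ^ (-(1 / 2) : ℝ) :=
              Real.rpow_le_rpow_of_nonpos (by linarith) h1 (by norm_num)
          _ ≤ _ := Real.rpow_le_rpow_of_exponent_le hn1' (by linarith)
      have h2 := hstep I n hI hn
      have h3 : 1 - c1 * (L n) ^ (-γ) ≤ Real.exp (-(c1 / N)) := by
        have h4 := Real.add_one_le_exp (-(c1 / N))
        have h5 : c1 * (1 / (N : ℝ)) ≤ c1 * (L n) ^ (-γ) := mul_le_mul_of_nonneg_left hLn hc1.le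
        have e : c1 * (1 / (N : ℝ)) = c1 / N := by ring
        linarith
      calc volume.real (F I (n + 1)) ≤ (1 - c1 * (L n) ^ (-γ)) * volume.real (F I n) := h2
        _ ≤ Real.exp (-(c1 / N)) * volume.real (F I n) :=
            mul_le_mul_of_nonneg_right h3 measureReal_nonneg
        _ ≤ Real.exp (-(c1 / N)) * Real.exp (-(c1 * ((n : ℝ) - I) / N)) :=
            mul_le_mul_of_nonneg_left ih1 (Real.exp_pos _).le
        _ = _ := by
            rw [← Real.exp_add]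
            congr 1
            push_cast
            ring
  obtain ⟨G, hG⟩ : ∃ G : ℕ → Set ℝ, G = fun I => {θ : ℝ | θ ∈ Set.Ioc (0 : ℝ) 1 ∧
      1 ≤ D g θ (tt I) ∧ ∀ i, I ≤ i → M S g s w θ (X i) (X i * L i) ≠ 0} := ⟨_, rfl⟩
  have hGF : ∀ I n, G I ⊆ F I n := by
    intro I n θ hθ
    rw [hG] at hθ
    rw [hF]
    exact ⟨hθ.1, hθ.2.1, fun i hi _ => hθ.2.2 i hi⟩
  have hG0 : ∀ I, I0 ≤ I → volume (G I) = 0 := by
    intro I hI
    have hGfin : volume (G I) ≠ ⊤ :=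
      ne_top_of_le_ne_top hIfin (measure_mono ((hGF I 0).trans (hFsub I 0)))
    have h1 : ∀ N : ℕ, 1 ≤ N → I ≤ N → volume.real (G I) ≤ Real.exp (-(c1 * ((N : ℝ) - I))) := by
      intro N hN1 hIN
      have hN0 : (0 : ℝ) < N := by exact_mod_cast hN1
      have hNN : N ≤ N ^ 2 := by nlinarith
      have h2 := hexp I N hI (N ^ 2) (by omega) le_rfl
      have h3 := measureReal_mono (μ := volume) (hGF I (N ^ 2))
        (ne_top_of_le_ne_top hIfin (measure_mono (hFsub I (N ^ 2))))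
      refine h3.trans (h2.trans (Real.exp_le_exp.2 ?_))
      have h4 : (I : ℝ) / N ≤ I := by
        rw [div_le_iff₀ hN0]
        have h5 : (1 : ℝ) ≤ N := by exact_mod_cast hN1
        have h6 : (0 : ℝ) ≤ I := Nat.cast_nonneg I
        nlinarith
      have e : c1 * (((N ^ 2 : ℕ) : ℝ) - I) / N = c1 * (N - I / N) := by
        push_cast
        field_simp
      rw [e]
      have h7 : c1 * ((N : ℝ) - I) ≤ c1 * (N - I / N) := mul_le_mul_of_nonneg_left (by linarith) hc1.le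
      linarith
    have h2 : Tendsto (fun N : ℕ => Real.exp (-(c1 * ((N : ℝ) - I)))) atTop (𝓝 0) := by
      refine Real.tendsto_exp_atBot.comp (tendsto_neg_atTop_atBot.comp ?_)
      exact (tendsto_atTop_add_const_right _ (-(I : ℝ)) tendsto_natCast_atTop_atTop).const_mul_atTop hc1
    have h3 : volume.real (G I) ≤ 0 := by
      refine ge_of_tendsto h2 ?_
      filter_upwards [eventually_ge_atTop 1, eventually_ge_atTop I] with N hN1 hN2
      exact h1 N hN1 hN2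
    have h4 : volume.real (G I) = 0 := le_antisymm h3 measureReal_nonneg
    rw [measureReal_def, ENNReal.toReal_eq_zero_iff] at h4
    rcases h4 with h4 | h4
    · exact h4
    · exact absurd h4 hGfin
  have hae : ∀ᵐ θ : ℝ, ∀ I, I0 ≤ I → θ ∉ G I := by
    rw [ae_all_iff]
    intro I
    by_cases hI : I0 ≤ I
    · have h1 := hG0 I hI
      rw [measure_eq_zero_iff_ae_notMem] at h1
      filter_upwards [h1] with θ hθ _
      exact hθ
    · filter_upwards with θ h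
      exact absurd h hI
  filter_upwards [hae] with θ hθ hm
  rw [frequently_atTop]
  intro y
  have hDev : ∀ᶠ I : ℕ in atTop, 1 ≤ D g θ (tt I) := by
    have h1 : ∀ᶠ I : ℕ in atTop, (2 / θ + 1) / κ ≤ X I := hXtop.eventually_ge_atTop _
    filter_upwards [h1] with I h2
    rw [div_le_iff₀ hκ] at h2
    have h3 : κ * X I < tt I + 1 := by rw [htt]; exact Nat.lt_floor_add_one _
    have h4 : 2 / θ < tt I := by linarith
    have h5 : ((tt I : ℕ) : ℝ) ≤ (g : ℝ) ^ tt I := by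
      have : tt I ≤ g ^ tt I := (Nat.lt_pow_self (by omega)).le
      exact_mod_cast this
    have h6 : 2 < θ * (g : ℝ) ^ tt I := by
      rw [div_lt_iff₀ hm.1] at h4
      nlinarith [hm.1]
    have h7 : 2 < ⌈θ * (g : ℝ) ^ tt I⌉₊ := by
      rw [Nat.lt_ceil]
      exact_mod_cast h6
    unfold D
    omega
  obtain ⟨I, hI1, hI2, hI3⟩ := (hDev.and ((eventually_ge_atTop I0).and
    (hXtop.eventually_ge_atTop y))).exists
  have h1 := hθ I hI2
  rw [hG] at h1
  simp only [Set.mem_setOf_eq, not_and, not_forall, not_not] at h1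
  obtain ⟨i, hi1, hi2⟩ := h1 hm hI1
  refine ⟨X i, hI3.trans (hXmono I i hi1), ?_⟩
  rw [← hLlog]
  exact hi2

end io

/-- primes in a dyadic interval and a residue class -/
theorem classes : ∃ c C : ℝ, 0 < c ∧ 0 < C ∧ ∀ q a : ℕ, 1 ≤ q → a.Coprime q → ∀ᶠ n : ℕ in atTop,
    c / Nat.totient q ≤ V {m | m ≡ a [MOD q]} (2 * n) - V {m | m ≡ a [MOD q]} n ∧
    V {m | m ≡ a [MOD q]} (2 * n) - V {m | m ≡ a [MOD q]} n ≤ C / Nat.totient q := by
  classical
  obtain ⟨δ₀, η, hδ₀, hδ₁, hη, X₀, hX₀, hH⟩ := Pool.Agent.H295R3.D.hoheisel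
  obtain ⟨x0, hx0⟩ := Pool.Agent.H387R2.Uni.siegel
  refine ⟨η / 4, 21, by positivity, by norm_num, fun q a hq ha => ?_⟩
  obtain ⟨S, hS⟩ : ∃ S : Set ℕ, S = {m | m ≡ a [MOD q]} := ⟨_, rfl⟩
  obtain ⟨φ, hφ⟩ : ∃ φ : ℝ, φ = Nat.totient q := ⟨_, rfl⟩
  have hφ0 : 0 < φ := by
    rw [hφ]
    exact_mod_cast Nat.totient_pos.2 (by omega)
  rw [← hS, ← hφ]
  have hlog : Tendsto (fun n : ℕ => Real.log n) atTop atTop :=
    Real.tendsto_log_atTop.comp tendsto_natCast_atTop_atTop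
  have h5 : ∀ᶠ n : ℕ in atTop, 3 * φ / min (η / 2) 1 ≤ Real.log n ^ 5 :=
    ((tendsto_pow_atTop (by norm_num : 5 ≠ 0)).comp hlog).eventually_ge_atTop _
  have h6 : ∀ᶠ n : ℕ in atTop, (q : ℝ) ≤ Real.log n ^ 2 :=
    ((tendsto_pow_atTop (by norm_num : 2 ≠ 0)).comp hlog).eventually_ge_atTop _
  filter_upwards [h5, h6, hlog.eventually_ge_atTop 1, eventually_ge_atTop (x0 + X₀ + 3)] with
    n hn5 hn6 hn1 hn
  have hn3' : (3 : ℝ) ≤ n := by exact_mod_cast (by omega : 3 ≤ n)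
  have hn0 : (0 : ℝ) < n := by linarith
  have hl0 : 0 < Real.log n := by linarith
  have h2n : Real.log n ≤ Real.log ((2 * n : ℕ) : ℝ) := by
    refine Real.log_le_log hn0 ?_
    push_cast
    linarith
  -- the number of primes
  obtain ⟨T, hT⟩ : ∃ T, T = (Finset.Ioc n (2 * n)).filter (fun p => p.Prime ∧ p ∈ S) := ⟨_, rfl⟩
  have hpi1 : H343E.pi1 (2 * n) - H343E.pi1 n = (((Finset.Ioc n (2 * n)).filter Nat.Prime).card : ℝ) := by
    unfold H343E.pi1
    have e : (Finset.Icc 1 (2 * n)).filter Nat.Prime =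
        (Finset.Icc 1 n).filter Nat.Prime ∪ (Finset.Ioc n (2 * n)).filter Nat.Prime := by
      rw [← Finset.filter_union]
      congr 1
      ext p
      simp only [Finset.mem_union, Finset.mem_Icc, Finset.mem_Ioc]
      omega
    have hd : Disjoint ((Finset.Icc 1 n).filter Nat.Prime) ((Finset.Ioc n (2 * n)).filter Nat.Prime) := by
      rw [Finset.disjoint_left]
      intro p hp hp'
      rw [Finset.mem_filter, Finset.mem_Icc] at hp
      rw [Finset.mem_filter, Finset.mem_Ioc] at hp'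
      omega
    have h1 : (Finset.Icc 1 (2 * n)).filter (fun p => p.Prime) = (Finset.Icc 1 (2 * n)).filter Nat.Prime := rfl
    rw [h1, e, Finset.card_union_of_disjoint hd]
    push_cast
    ring
  have haq : a % q < q := Nat.mod_lt _ (by omega)
  have hac : (a % q).Coprime q := by
    rw [Nat.Coprime, ← Nat.gcd_rec, Nat.gcd_comm]
    exact ha
  have hmem : ∀ p : ℕ, p ≡ a % q [MOD q] ↔ p ∈ S := by
    intro p
    rw [hS]
    show p % q = a % q % q ↔ p % q = a % q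
    rw [Nat.mod_mod]
  have hpiAP : H343E.piAP (2 * n) q (a % q) - H343E.piAP n q (a % q) = (T.card : ℝ) := by
    unfold H343E.piAP
    have e : (Finset.Icc 1 (2 * n)).filter (fun p => p.Prime ∧ p ≡ a % q [MOD q]) =
        (Finset.Icc 1 n).filter (fun p => p.Prime ∧ p ≡ a % q [MOD q]) ∪ T := by
      ext p
      rw [hT]
      simp only [Finset.mem_union, Finset.mem_filter, Finset.mem_Icc, Finset.mem_Ioc, hmem p]
      constructor
      · rintro ⟨⟨h1, h2⟩, h3⟩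
        rcases Nat.lt_or_ge n p with h4 | h4
        · right; exact ⟨⟨h4, h2⟩, h3⟩
        · left; exact ⟨⟨h1, h4⟩, h3⟩
      · rintro (⟨⟨h1, h2⟩, h3⟩ | ⟨⟨h1, h2⟩, h3⟩)
        · exact ⟨⟨h1, by omega⟩, h3⟩
        · exact ⟨⟨by omega, h2⟩, h3⟩
    have hd : Disjoint ((Finset.Icc 1 n).filter (fun p => p.Prime ∧ p ≡ a % q [MOD q])) T := by
      rw [Finset.disjoint_left]
      intro p hp hp'
      rw [Finset.mem_filter, Finset.mem_Icc] at hp
      rw [hT, Finset.mem_filter, Finset.mem_Ioc] at hp'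
      omega
    rw [e, Finset.card_union_of_disjoint hd]
    push_cast
    ring
  have hs1 := hx0 n (by omega) q hq hn6 (a % q) haq hac
  have hs2 := hx0 (2 * n) (by omega) q hq (by
    refine hn6.trans ?_
    exact pow_le_pow_left₀ hl0.le h2n 2) (a % q) haq hac
  rw [← hφ] at hs1 hs2
  have hs2' : |H343E.piAP (2 * n) q (a % q) - H343E.pi1 (2 * n) / φ| ≤ 2 * n / Real.log n ^ 6 := by
    refine hs2.trans ?_
    push_cast at h2n ⊢
    have h7 : Real.log (n : ℝ) ^ 6 ≤ Real.log (2 * (n : ℝ)) ^ 6 := pow_le_pow_left₀ hl0.le h2n 6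
    gcongr
  obtain ⟨P, hP⟩ : ∃ P : ℝ, P = (((Finset.Ioc n (2 * n)).filter Nat.Prime).card : ℝ) := ⟨_, rfl⟩
  rw [← hP] at hpi1
  have herr : |(T.card : ℝ) - P / φ| ≤ 3 * n / Real.log n ^ 6 := by
    rw [← hpiAP, ← hpi1]
    have e : H343E.piAP (2 * n) q (a % q) - H343E.piAP n q (a % q) -
        (H343E.pi1 (2 * n) - H343E.pi1 n) / φ =
        (H343E.piAP (2 * n) q (a % q) - H343E.pi1 (2 * n) / φ) -
        (H343E.piAP n q (a % q) - H343E.pi1 n / φ) := by ring
    rw [e]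
    refine (abs_sub _ _).trans ?_
    calc _ ≤ 2 * n / Real.log n ^ 6 + n / Real.log n ^ 6 := add_le_add hs2' hs1
      _ = _ := by ring
  have hPlow : η * n / Real.log n ≤ P := by
    have h7 := hH n n (by omega) (by
      have h8 : (1 : ℝ) ≤ n := by linarith
      calc (n : ℝ) ^ (1 - δ₀) ≤ (n : ℝ) ^ (1 : ℝ) := Real.rpow_le_rpow_of_exponent_le h8 (by linarith)
        _ = n := Real.rpow_one _) le_rfl
    have e : n + n = 2 * n := by ring
    rw [e] at h7
    rw [hP]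
    exact h7
  have hPup : P ≤ 20 * (n / Real.log n) := by
    have h7 := Pool.Agent.Q160.TB.bt_int (A := n) (N := n) (by omega)
    have e : n + n = 2 * n := by ring
    rw [e] at h7
    rw [hP]
    exact h7
  have hmin0 : 0 < min (η / 2) 1 := lt_min (by positivity) one_pos
  have herr2 : 3 * n / Real.log n ^ 6 ≤ min (η / 2) 1 * (n / (φ * Real.log n)) := by
    rw [div_le_iff₀ hmin0] at hn5
    rw [div_le_iff₀ (by positivity)]
    have e : min (η / 2) 1 * (n / (φ * Real.log n)) * Real.log n ^ 6 =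
        (Real.log n ^ 5 * min (η / 2) 1) * (n / φ) := by
      field_simp
    rw [e]
    calc 3 * (n : ℝ) = 3 * φ * (n / φ) := by field_simp
      _ ≤ _ := mul_le_mul_of_nonneg_right hn5 (by positivity)
  obtain ⟨he1, he2⟩ := abs_le.1 herr
  have hφl : 0 < φ * Real.log n := by positivity
  have hm1 : min (η / 2) 1 * (n / (φ * Real.log n)) ≤ η / 2 * (n / (φ * Real.log n)) :=
    mul_le_mul_of_nonneg_right (min_le_left _ _) (by positivity)
  have hm2 : min (η / 2) 1 * (n / (φ * Real.log n)) ≤ 1 * (n / (φ * Real.log n)) :=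
    mul_le_mul_of_nonneg_right (min_le_right _ _) (by positivity)
  have hTlow : η / 2 * (n / (φ * Real.log n)) ≤ T.card := by
    have h7 : η * (n / (φ * Real.log n)) ≤ P / φ := by
      calc η * (n / (φ * Real.log n)) = η * n / Real.log n / φ := by field_simp
        _ ≤ P / φ := div_le_div_of_nonneg_right hPlow hφ0.le
    linarith
  have hTup : (T.card : ℝ) ≤ 21 * (n / (φ * Real.log n)) := by
    have h7 : P / φ ≤ 20 * (n / (φ * Real.log n)) := by
      calc P / φ ≤ 20 * (n / Real.log n) / φ := div_le_div_of_nonneg_right hPup hφ0.le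
        _ = _ := by field_simp
    linarith
  have hV : V S (2 * n) - V S n = ∑ p ∈ T, Pool.Agent.TH888.R.wt p := by
    rw [V_eq, V_eq, Pool.Agent.W157.MG.VS_sub S (by omega), hT]
  rw [hV]
  constructor
  · have h7 : ∀ p ∈ T, Real.log n / (2 * n) ≤ Pool.Agent.TH888.R.wt p := by
      intro p hp
      rw [hT, Finset.mem_filter, Finset.mem_Ioc] at hp
      have h8 := Pool.Agent.Q160.TB.wt_anti (by omega : 3 ≤ p) hp.1.2
      refine le_trans ?_ h8
      unfold Pool.Agent.TH888.R.wt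
      push_cast at h2n ⊢
      exact div_le_div_of_nonneg_right h2n (by positivity)
    have h8 := Finset.card_nsmul_le_sum T _ _ h7
    rw [nsmul_eq_mul] at h8
    refine le_trans ?_ h8
    calc η / 4 / φ = η / 2 * (n / (φ * Real.log n)) * (Real.log n / (2 * n)) := by
          field_simp
          norm_num
      _ ≤ _ := mul_le_mul_of_nonneg_right hTlow (by positivity)
  · have h7 : ∀ p ∈ T, Pool.Agent.TH888.R.wt p ≤ Real.log n / n := by
      intro p hp
      rw [hT, Finset.mem_filter, Finset.mem_Ioc] at hp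
      exact Pool.Agent.Q160.TB.wt_anti (by omega : 3 ≤ n) hp.1.1.le
    have h8 := Finset.sum_le_card_nsmul T _ _ h7
    rw [nsmul_eq_mul] at h8
    refine h8.trans ?_
    calc (T.card : ℝ) * (Real.log n / n) ≤ 21 * (n / (φ * Real.log n)) * (Real.log n / n) :=
          mul_le_mul_of_nonneg_right hTup (by positivity)
      _ = _ := by field_simp

/-- many exponents in every window -/
theorem upper_ae : ∃ δ c' C1 : ℝ, 0 < δ ∧ δ < 1 ∧ 0 < c' ∧ 0 < C1 ∧ ∀ g : ℕ, 2 ≤ g → ∀ (S : Set ℕ) (a : ℝ),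
    0 < a → (∀ᶠ n : ℕ in atTop, a ≤ V S (2 * n) - V S n) →
    (∃ κ : ℝ, 0 < κ ∧ ∀ c : ℝ, 0 < c → c ≤ c' * (a / Real.log g) → ∀ᶠ x : ℝ in atTop, ∀ s : ℝ,
      1 - δ ≤ s → s ≤ 1 → ∀ w : ℕ → ℕ, Fits g s w → ∀ L : ℝ, 1 ≤ L → ∀ t A : ℕ, t ≤ κ * x → 3 ≤ A →
      A < g ^ t → volume.real {θ : ℝ | θ ∈ Set.Ioc (0 : ℝ) 1 ∧ D g θ t = A ∧
        (M S g s w θ x (x * L) : ℝ) < c * Real.log L} ≤ C1 * L ^ (-c) * ((g : ℝ) ^ t)⁻¹) ∧
    ∀ s : ℝ, 1 - δ ≤ s → s ≤ 1 → ∀ w : ℕ → ℕ, Fits g s w → ∀ᵐ θ : ℝ, θ ∈ Set.Ioc (0 : ℝ) 1 →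
      ∀ᶠ x : ℝ in atTop, ∀ L : ℝ, (Real.log x) ^ (12 / c' * (Real.log g / a)) ≤ L →
        c' / 2 * (a / Real.log g) * Real.log L ≤ M S g s w θ x (x * L) := by
  obtain ⟨δ, c', C, hδ, hδ1, hc', hC, h⟩ := dev
  refine ⟨δ, c', C, hδ, hδ1, hc', hC, fun g hg S a ha hS => ?_⟩
  obtain ⟨κ, hκ, hdev⟩ := h g hg S a ha hS
  refine ⟨⟨κ, hκ, hdev⟩, fun s hs hs1 w hw => ?_⟩
  have hlg0 : 0 < Real.log g := Real.log_pos (by exact_mod_cast (by omega : 1 < g))
  obtain ⟨c, hc⟩ : ∃ c, c = c' * (a / Real.log g) := ⟨_, rfl⟩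
  have hc0 : 0 < c := by rw [hc]; positivity
  obtain ⟨X0, hX0⟩ := eventually_atTop.1 (hdev c hc0 hc.le)
  have h1 := every hg (S := S) (s := s) (w := w) hκ hc0 hC
    (fun x hx L hL t A ht hA3 hAt => hX0 x hx s hs hs1 w hw L hL t A ht hA3 hAt)
  filter_upwards [h1] with θ hθ hm
  filter_upwards [hθ hm] with x hx L hL
  have e1 : 12 / c' * (Real.log g / a) = 12 / c := by
    rw [hc]
    field_simp
  have e2 : c' / 2 * (a / Real.log g) = c / 2 := by
    rw [hc]
    ring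
  rw [e1] at hL
  rw [e2]
  exact hx L hL

/-- windows without exponents -/
theorem lower_ae : ∃ C2 : ℝ, 0 < C2 ∧ ∀ g : ℕ, 2 ≤ g → ∀ (S : Set ℕ) (b : ℝ), 0 < b →
    C2 * b ≤ Real.log g → (∀ᶠ n : ℕ in atTop, V S (2 * n) - V S n ≤ b) →
    (∀ᶠ x : ℝ in atTop, ∀ s : ℝ, 31 / 32 ≤ s → s ≤ 1 →
      ∀ w : ℕ → ℕ, Fits g s w → ∀ L : ℝ, 1 ≤ L → ∀ t A : ℕ, (t : ℝ) ≤ x / 32 → 1 ≤ A → A < g ^ t →
      Real.exp (-2) * L ^ (-(C2 * (b / Real.log g))) * ((g : ℝ) ^ t)⁻¹ ≤
      volume.real {θ : ℝ | θ ∈ Set.Ioc (0 : ℝ) 1 ∧ D g θ t = A ∧ M S g s w θ x (x * L) = 0}) ∧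
    ∀ β : ℝ, 0 < β → β ≤ 1 / (4 * C2) * (Real.log g / b) → ∀ s : ℝ, 31 / 32 ≤ s → s ≤ 1 →
      ∀ w : ℕ → ℕ, Fits g s w → ∀ᵐ θ : ℝ, θ ∈ Set.Ioc (0 : ℝ) 1 →
        ∃ᶠ x : ℝ in atTop, M S g s w θ x (x * (Real.log x) ^ β) = 0 := by
  obtain ⟨C, hC, h⟩ := low
  refine ⟨C, hC, fun g hg S b hb hbg hS => ?_⟩
  have hev := h g hg S b hb hbg hS
  refine ⟨hev, fun β hβ hβ1 s hs hs1 w hw => ?_⟩
  have hlg0 : 0 < Real.log g := Real.log_pos (by exact_mod_cast (by omega : 1 < g))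
  obtain ⟨X0, hX0⟩ := eventually_atTop.1 hev
  refine io (κ := 1 / 32) (c1 := Real.exp (-2)) (γ := C * (b / Real.log g)) (X0 := X0) hg (by linarith) hs1
    (by norm_num) (Real.exp_pos _) (by positivity) hβ ?_ ?_
  · calc β * (C * (b / Real.log g)) ≤ 1 / (4 * C) * (Real.log g / b) * (C * (b / Real.log g)) := by
          gcongr
      _ = 1 / 4 := by field_simp
  · intro x hx L hL t A ht hA1 hAt
    exact hX0 x hx s hs hs1 w hw L hL t A (by linarith) hA1 hAt

/-- There are absolute constants `δ, c, C > 0` such that for every base `g ≥ 2`, for `1 - δ ≤ s ≤ 1` and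
all prescribed initial blocks the following holds.

If the set `S` of primes has at least the amount `a` of `log p / p` in the dyadic intervals, then among
the `θ` with given first `t ≤ κ x` digits at most the proportion `C L ^ (-c a / log g)` has fewer than
`c (a / log g) log L` exponents in `S` in `(x, x L]`, and for almost every `θ` there are at least
`c (a / log g) log L` exponents in `S` in `(x, x L]` for all large `x` and all
`L ≥ (log x) ^ (C log g / a)`.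

If `S` has at most the amount `b ≤ (log g) / C` of `log p / p` in the dyadic intervals, then among the
`θ` with given first `t ≤ c x` digits at least the proportion `c L ^ (-C b / log g)` has no exponent in
`S` in `(x, x L]`, and for almost every `θ` there are arbitrarily large `x` for which there is no
exponent in `S` between `x` and `x (log x) ^ (c log g / b)`.

So for the exponents in a residue class modulo `q`, coprime to `q`, and for almost every `θ`, the upper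
limit of `log (p' / p) / log log p` over the consecutive exponents `p < p'` is at most `C φ(q) log g`,
and it is at least `c φ(q) log g` if `φ(q) log g ≥ C`. -/
theorem result :
    (∀ s : ℝ, 0 ≤ s → s ≤ 1 → Fits 2 s (ones s) ∧ ∀ a b : ℝ, M Set.univ 2 s (ones s) 1 a b =
      {p : ℕ | a < p ∧ (p : ℝ) ≤ b ∧ p.Prime ∧ (2 ^ p - 1).Prime}.ncard) ∧
    ∃ δ c C : ℝ, 0 < δ ∧ 0 < c ∧ 0 < C ∧ ∀ g : ℕ, 2 ≤ g →
      (∀ (S : Set ℕ) (a : ℝ), 0 < a → (∀ᶠ n : ℕ in atTop, a ≤ V S (2 * n) - V S n) →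
        (∃ κ : ℝ, 0 < κ ∧ ∀ᶠ x : ℝ in atTop, ∀ s : ℝ, 1 - δ ≤ s → s ≤ 1 → ∀ w : ℕ → ℕ, Fits g s w →
          ∀ L : ℝ, 1 ≤ L → ∀ t A : ℕ, t ≤ κ * x → 3 ≤ A → A < g ^ t →
          volume.real {θ : ℝ | θ ∈ Set.Ioc (0 : ℝ) 1 ∧ D g θ t = A ∧
            (M S g s w θ x (x * L) : ℝ) < c * (a / Real.log g) * Real.log L} ≤
            C * L ^ (-(c * (a / Real.log g))) * ((g : ℝ) ^ t)⁻¹) ∧
        ∀ s : ℝ, 1 - δ ≤ s → s ≤ 1 → ∀ w : ℕ → ℕ, Fits g s w → ∀ᵐ θ : ℝ, θ ∈ Set.Ioc (0 : ℝ) 1 →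
          ∀ᶠ x : ℝ in atTop, ∀ L : ℝ, (Real.log x) ^ (C * (Real.log g / a)) ≤ L →
            c * (a / Real.log g) * Real.log L ≤ M S g s w θ x (x * L)) ∧
      (∀ (S : Set ℕ) (b : ℝ), 0 < b → C * b ≤ Real.log g →
        (∀ᶠ n : ℕ in atTop, V S (2 * n) - V S n ≤ b) →
        (∀ᶠ x : ℝ in atTop, ∀ s : ℝ, 1 - δ ≤ s → s ≤ 1 → ∀ w : ℕ → ℕ, Fits g s w →
          ∀ L : ℝ, 1 ≤ L → ∀ t A : ℕ, t ≤ c * x → 1 ≤ A → A < g ^ t →
          c * L ^ (-(C * (b / Real.log g))) * ((g : ℝ) ^ t)⁻¹ ≤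
            volume.real {θ : ℝ | θ ∈ Set.Ioc (0 : ℝ) 1 ∧ D g θ t = A ∧ M S g s w θ x (x * L) = 0}) ∧
        ∀ s : ℝ, 1 - δ ≤ s → s ≤ 1 → ∀ w : ℕ → ℕ, Fits g s w → ∀ᵐ θ : ℝ, θ ∈ Set.Ioc (0 : ℝ) 1 →
          ∃ᶠ x : ℝ in atTop, M S g s w θ x (x * (Real.log x) ^ (c * (Real.log g / b))) = 0) ∧
      ∀ q a : ℕ, 1 ≤ q → a.Coprime q → ∀ s : ℝ, 1 - δ ≤ s → s ≤ 1 → ∀ w : ℕ → ℕ, Fits g s w →
        ∀ᵐ θ : ℝ, θ ∈ Set.Ioc (0 : ℝ) 1 →
          (∀ᶠ x : ℝ in atTop, 0 < M {m | m ≡ a [MOD q]} g s w θ x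
            (x * (Real.log x) ^ (C * (Nat.totient q * Real.log g)))) ∧
          (C ≤ Nat.totient q * Real.log g → ∃ᶠ x : ℝ in atTop, M {m | m ≡ a [MOD q]} g s w θ x
            (x * (Real.log x) ^ (c * (Nat.totient q * Real.log g))) = 0) := by
  refine ⟨fun s hs0 hs1 => ⟨fun p _ => ?_, fun a b => ?_⟩, ?_⟩
  · unfold ones
    have : 0 < 2 ^ (p - ⌊s * p⌋₊) := by positivity
    omega
  · unfold M
    congr 1
    ext p
    constructor
    · rintro ⟨h1, h2, h3, _, h5⟩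
      rw [N_mersenne hs0 hs1, rough_mersenne h3] at h5
      exact ⟨h1, h2, h3, h5⟩
    · rintro ⟨h1, h2, h3, h5⟩
      refine ⟨h1, h2, h3, Set.mem_univ p, ?_⟩
      rw [N_mersenne hs0 hs1, rough_mersenne h3]
      exact h5
  · obtain ⟨δ1, c', C1, hδ1, hδ11, hc', hC1, hup⟩ := upper_ae
    obtain ⟨C2, hC2, hlo⟩ := lower_ae
    obtain ⟨cq, Cq, hcq, hCq, hcl⟩ := classes
    obtain ⟨c, hc⟩ : ∃ c, c = min (min (c' / 2) (min (Real.exp (-2)) (1 / 32)))
      (min (1 / (4 * C2)) (1 / (4 * C2 * Cq))) := ⟨_, rfl⟩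
    have hc0 : 0 < c := by rw [hc]; positivity
    have hcA : c ≤ c' / 2 := by
      rw [hc]; exact (min_le_left _ _).trans (min_le_left _ _)
    have hcB : c ≤ Real.exp (-2) := by
      rw [hc]; exact (min_le_left _ _).trans ((min_le_right _ _).trans (min_le_left _ _))
    have hcC : c ≤ 1 / 32 := by
      rw [hc]; exact (min_le_left _ _).trans ((min_le_right _ _).trans (min_le_right _ _))
    have hcD : c ≤ 1 / (4 * C2) := by
      rw [hc]; exact (min_le_right _ _).trans (min_le_left _ _)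
    have hcE : c ≤ 1 / (4 * C2 * Cq) := by
      rw [hc]; exact (min_le_right _ _).trans (min_le_right _ _)
    obtain ⟨C, hC⟩ : ∃ C, C = max (max C1 (12 / c')) (max C2 (max (12 / c' / cq) (C2 * Cq))) := ⟨_, rfl⟩
    have hCA : C1 ≤ C := by
      rw [hC]; exact (le_max_left _ _).trans (le_max_left _ _)
    have hCB : 12 / c' ≤ C := by
      rw [hC]; exact (le_max_right _ _).trans (le_max_left _ _)
    have hCC : C2 ≤ C := by
      rw [hC]; exact (le_max_left _ _).trans (le_max_right _ _)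
    have hCD : 12 / c' / cq ≤ C := by
      rw [hC]; exact (le_max_left _ _).trans ((le_max_right _ _).trans (le_max_right _ _))
    have hCE : C2 * Cq ≤ C := by
      rw [hC]; exact (le_max_right _ _).trans ((le_max_right _ _).trans (le_max_right _ _))
    have hC0 : 0 < C := lt_of_lt_of_le hC1 hCA
    refine ⟨min δ1 (1 / 32), c, C, lt_min hδ1 (by norm_num), hc0, hC0, fun g hg => ?_⟩
    have hlg0 : 0 < Real.log g := Real.log_pos (by exact_mod_cast (by omega : 1 < g))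
    have hδA : ∀ s : ℝ, 1 - min δ1 (1 / 32) ≤ s → 1 - δ1 ≤ s ∧ 31 / 32 ≤ s := by
      intro s hs
      have h1 := min_le_left δ1 (1 / 32)
      have h2 := min_le_right δ1 (1 / 32)
      constructor <;> linarith
    have hIfin : volume (Set.Ioc (0 : ℝ) 1) ≠ ⊤ := by rw [Real.volume_Ioc]; simp
    refine ⟨fun S a ha hS => ?_, fun S b hb hbg hS => ?_, fun q a hq ha s hs hs1 w hw => ?_⟩
    · obtain ⟨⟨κ, hκ, hdev⟩, hae⟩ := hup g hg S a ha hS
      refine ⟨⟨κ, hκ, ?_⟩, fun s hs hs1 w hw => ?_⟩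
      · have hcc : c * (a / Real.log g) ≤ c' * (a / Real.log g) :=
          mul_le_mul_of_nonneg_right (by linarith) (by positivity)
        filter_upwards [hdev (c * (a / Real.log g)) (by positivity) hcc] with x hx s hs hs1 w hw L hL
          t A ht hA3 hAt
        refine (hx s (hδA s hs).1 hs1 w hw L hL t A ht hA3 hAt).trans ?_
        have hL0 : 0 < L := by linarith
        gcongr
      · filter_upwards [hae s (hδA s hs).1 hs1 w hw] with θ hθ hm
        filter_upwards [hθ hm, Real.tendsto_log_atTop.eventually_ge_atTop (1 : ℝ)] with x hx hx1 L hL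
        have h1 : (Real.log x) ^ (12 / c' * (Real.log g / a)) ≤ (Real.log x) ^ (C * (Real.log g / a)) :=
          Real.rpow_le_rpow_of_exponent_le hx1 (mul_le_mul_of_nonneg_right hCB (by positivity))
        have h2 : 1 ≤ L := (Real.one_le_rpow hx1 (by positivity)).trans hL
        refine le_trans ?_ (hx L (h1.trans hL))
        have h3 := Real.log_nonneg h2
        gcongr
    · obtain ⟨hev, hio⟩ := hlo g hg S b hb ((mul_le_mul_of_nonneg_right hCC hb.le).trans hbg) hS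
      refine ⟨?_, fun s hs hs1 w hw => ?_⟩
      · filter_upwards [hev, eventually_ge_atTop (0 : ℝ)] with x hx hx0 s hs hs1 w hw L hL t A ht hA1 hAt
        refine le_trans ?_ (hx s (hδA s hs).2 hs1 w hw L hL t A (by nlinarith) hA1 hAt)
        have hL0 : 0 < L := by linarith
        have h1 : L ^ (-(C * (b / Real.log g))) ≤ L ^ (-(C2 * (b / Real.log g))) := by
          refine Real.rpow_le_rpow_of_exponent_le hL ?_
          have : C2 * (b / Real.log g) ≤ C * (b / Real.log g) :=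
            mul_le_mul_of_nonneg_right hCC (by positivity)
          linarith
        have h2 : 0 < L ^ (-(C * (b / Real.log g))) := Real.rpow_pos_of_pos hL0 _
        gcongr
      · exact hio (c * (Real.log g / b)) (by positivity)
          (mul_le_mul_of_nonneg_right hcD (by positivity)) s (hδA s hs).2 hs1 w hw
    · obtain ⟨φ, hφ⟩ : ∃ φ : ℝ, φ = Nat.totient q := ⟨_, rfl⟩
      have hφ0 : 0 < φ := by
        rw [hφ]
        exact_mod_cast Nat.totient_pos.2 (by omega)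
      have hclq := hcl q a hq ha
      obtain ⟨S, hS⟩ : ∃ S : Set ℕ, S = {m | m ≡ a [MOD q]} := ⟨_, rfl⟩
      rw [← hS, ← hφ] at hclq
      rw [← hS, ← hφ]
      have hU := (hup g hg S (cq / φ) (by positivity) (hclq.mono fun n h => h.1)).2 s (hδA s hs).1 hs1 w hw
      have hL : C ≤ φ * Real.log g → ∀ᵐ θ : ℝ, θ ∈ Set.Ioc (0 : ℝ) 1 →
          ∃ᶠ x : ℝ in atTop, M S g s w θ x (x * (Real.log x) ^ (c * (φ * Real.log g))) = 0 := by
        intro hCφ
        refine (hlo g hg S (Cq / φ) (by positivity) ?_ (hclq.mono fun n h => h.2)).2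
          (c * (φ * Real.log g)) (by positivity) ?_ s (hδA s hs).2 hs1 w hw
        · rw [← mul_div_assoc, div_le_iff₀ hφ0]
          linarith
        · calc c * (φ * Real.log g) ≤ 1 / (4 * C2 * Cq) * (φ * Real.log g) :=
                mul_le_mul_of_nonneg_right hcE (by positivity)
            _ = _ := by field_simp
      have hU2 : ∀ᵐ θ : ℝ, θ ∈ Set.Ioc (0 : ℝ) 1 → ∀ᶠ x : ℝ in atTop,
          0 < M S g s w θ x (x * (Real.log x) ^ (C * (φ * Real.log g))) := by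
        filter_upwards [hU] with θ hθ hm
        filter_upwards [hθ hm, Real.tendsto_log_atTop.eventually_ge_atTop (2 : ℝ)] with x hx hx2
        have h1 := hx ((Real.log x) ^ (C * (φ * Real.log g))) (by
          refine Real.rpow_le_rpow_of_exponent_le (by linarith) ?_
          calc 12 / c' * (Real.log g / (cq / φ)) = 12 / c' / cq * (φ * Real.log g) := by field_simp
            _ ≤ _ := mul_le_mul_of_nonneg_right hCD (by positivity))
        have h2 : 0 < Real.log ((Real.log x) ^ (C * (φ * Real.log g))) := by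
          rw [Real.log_rpow (by linarith)]
          have : 0 < Real.log (Real.log x) := Real.log_pos (by linarith)
          positivity
        have h3 : (0 : ℝ) < M S g s w θ x (x * (Real.log x) ^ (C * (φ * Real.log g))) := by
          refine lt_of_lt_of_le ?_ h1
          positivity
        exact_mod_cast h3
      by_cases hCφ : C ≤ φ * Real.log g
      · filter_upwards [hU2, hL hCφ] with θ h1 h2 hm
        exact ⟨h1 hm, fun _ => h2 hm⟩
      · filter_upwards [hU2] with θ h1 hm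
        exact ⟨h1 hm, fun h => absurd h hCφ⟩

end Pool.Agent.Results.MP_9b2bac_nt.MaximalGaps
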